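import Pool.Agent.H62.LP.T1
import Pool.Agent.H62.LP.T2

/-!
# Row ADJ of the board rwl (helper62, MP_521601_pr)

Edges of the loops of positive measure.
-/

set_option autoImplicit false

open MeasureTheory ProbabilityTheory Filter Topology
open scoped ENNReal NNReal

namespace Pool.Agent.H1.LP

open Pool.Agent.H62.LP

variable {d : ℕ}

theorem adj_symm {x y : Vt d} (h : Adj x y) : Adj y x := by
  unfold Adj at h ⊢
  rw [← h]
  exact Finset.sum_congr rfl fun i _ => abs_sub_comm _ _

theorem Q_ne {x y : Vt d} (h : Q x y ≠ 0) : Adj x y := by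
  unfold Q at h
  by_contra hn
  rw [if_neg hn] at h
  exact h rfl

theorem wt_chain (x : Vt d) (l : List (Vt d)) (h : wt Q x l ≠ 0) : List.IsChain Adj (x :: l) := by
  induction l generalizing x with
  | nil => exact List.IsChain.singleton x
  | cons y l ih =>
    rw [wt_cons] at h
    rw [List.isChain_cons_cons]
    exact ⟨Q_ne (left_ne_zero_of_mul h), ih y (right_ne_zero_of_mul h)⟩

theorem chain_of_mu {c : Cycle (Vt d)} (h : mu c ≠ 0) : Cycle.Chain Adj c := by
  classical
  unfold mu at h
  have h1 : ∃ l : List (Vt d), (if (l : Cycle (Vt d)) = c then lw l else 0) ≠ 0 := by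
    by_contra hc
    push Not at hc
    exact h (ENNReal.tsum_eq_zero.mpr hc)
  obtain ⟨l, hl⟩ := h1
  split_ifs at hl with hlc
  · subst hlc
    match l, hl with
    | [], hl => exact absurd rfl hl
    | [_], hl => exact absurd rfl hl
    | x :: y :: l, hl =>
      have h2 : wt Q x (y :: l ++ [x]) ≠ 0 := by
        intro h0
        apply hl
        show wt Q x (y :: l ++ [x]) / ((l.length + 2 : ℕ) : ℝ≥0∞) = 0
        rw [h0, ENNReal.zero_div]
      rw [Cycle.chain_coe_cons]
      exact wt_chain x _ h2
  · exact absurd rfl hl

theorem trav_symm {c : Cycle (Vt d)} {x y : Vt d} (h : Trav c x y) : Trav c y x := by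
  obtain ⟨l, h1 | h1⟩ := h
  · exact ⟨l, Or.inr h1⟩
  · exact ⟨l, Or.inl h1⟩

theorem trav_chain {c : Cycle (Vt d)} (t : List (Vt d)) : ∀ s : List (Vt d),
    ((s ++ t : List (Vt d)) : Cycle (Vt d)) = c → List.IsChain (Trav c) t := by
  induction t with
  | nil => intro s _; exact List.IsChain.nil
  | cons u t ih =>
    intro s hs
    match t, ih with
    | [], _ => exact List.IsChain.singleton u
    | v :: t, ih =>
      rw [List.isChain_cons_cons]
      constructor
      · refine ⟨t ++ s, Or.inl ?_⟩
        rw [← hs, Cycle.coe_eq_coe]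
        have e : u :: v :: (t ++ s) = (u :: v :: t) ++ s := by simp
        rw [e]
        exact List.isRotated_append
      · refine ih (s ++ [u]) ?_
        rw [← hs]
        congr 1
        simp

theorem rtg_of_chain {R : Vt d → Vt d → Prop} (a : Vt d) (l : List (Vt d))
    (h : List.IsChain R (a :: l)) : ∀ b ∈ a :: l, Relation.ReflTransGen R a b := by
  induction l generalizing a with
  | nil =>
    intro b hb
    rw [List.mem_singleton] at hb
    rw [hb]
  | cons y l ih =>
    rw [List.isChain_cons_cons] at h
    intro b hb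
    rcases List.mem_cons.mp hb with h1 | h1
    · rw [h1]
    · exact Relation.ReflTransGen.head h.1 (ih y h.2 b h1)

theorem rtg_symm {R : Vt d → Vt d → Prop} (hR : ∀ x y, R x y → R y x) {x y : Vt d}
    (h : Relation.ReflTransGen R x y) : Relation.ReflTransGen R y x := by
  induction h with
  | refl => exact Relation.ReflTransGen.refl
  | tail _ hbc ih => exact Relation.ReflTransGen.head (hR _ _ hbc) ih

theorem pf_ADJ : T_ADJ := by
  intro d c hc
  have hch := chain_of_mu hc
  constructor
  · rintro x y ⟨l, h | h⟩
    · rw [h, Cycle.chain_coe_cons, List.cons_append, List.isChain_cons_cons] at hch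
      rw [h]
      exact ⟨hch.1, by simp, by simp⟩
    · rw [h, Cycle.chain_coe_cons, List.cons_append, List.isChain_cons_cons] at hch
      rw [h]
      exact ⟨adj_symm hch.1, by simp, by simp⟩
  · induction c using Quotient.inductionOn' with
    | h l =>
      change ∀ x ∈ (l : Cycle (Vt d)), ∀ y ∈ (l : Cycle (Vt d)),
        Relation.ReflTransGen (Trav (l : Cycle (Vt d))) x y
      match l with
      | [] =>
        intro x hx
        exact absurd (Cycle.mem_coe_iff.mp hx) (by simp)
      | a :: l =>
        have h1 : List.IsChain (Trav ((a :: l : List (Vt d)) : Cycle (Vt d))) (a :: l) :=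
          trav_chain (a :: l) [] rfl
        have h2 := rtg_of_chain a l h1
        intro x hx y hy
        exact (rtg_symm (fun _ _ h => trav_symm h) (h2 x (Cycle.mem_coe_iff.mp hx))).trans
          (h2 y (Cycle.mem_coe_iff.mp hy))

end Pool.Agent.H1.LP
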