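import Mathlib

/-!
# SETH for linear programs: the statement (helper1, MP_c62aed_lc)
-/

namespace Pool.Agent.H1.LP

/-- A clause over `n` variables: a finite set of literals; the literal `(i, v)` says `x i = v`. -/
abbrev Clause (n : ℕ) := Finset (Fin n × Bool)

/-- `x` satisfies the clause `C`. -/
def Clause.Sat {n : ℕ} (C : Clause n) (x : Fin n → Bool) : Prop := ∃ l ∈ C, x l.1 = l.2

open Classical in
/-- The number of clauses of the CNF formula `phi` violated by `x`. -/
noncomputable def viol {n m : ℕ} (phi : Fin m → Clause n) (x : Fin n → Bool) : ℕ :=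
  (Finset.univ.filter (fun i => ¬ (phi i).Sat x)).card

/-- A linear programming relaxation of CNF-SAT on a cell of the cube.  It consists of a polyhedron
`{y : A y ≤ b}` with `size` inequalities, in any dimension `dim`; a feasible point `pt x` for every
assignment `x` in the cell; and for every clause `C` an affine functional (its loss), which takes at
the points `pt x` values in `[-1, 1]`, and values `≤ 0` if `x` satisfies `C`.
The polyhedron does not depend on the formula. -/
structure Relax (n : ℕ) where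
  /-- the cell -/
  cell : Finset (Fin n → Bool)
  /-- the dimension of the polyhedron -/
  dim : ℕ
  /-- the number of inequalities -/
  size : ℕ
  /-- the matrix of the inequalities -/
  A : Fin size → Fin dim → ℝ
  /-- the right hand side of the inequalities -/
  b : Fin size → ℝ
  /-- the feasible point of an assignment -/
  pt : (Fin n → Bool) → Fin dim → ℝ
  /-- the linear part of the loss of a clause -/
  w : Clause n → Fin dim → ℝ
  /-- the constant part of the loss of a clause -/
  w0 : Clause n → ℝ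
  feas : ∀ x ∈ cell, ∀ i, ∑ k, A i k * pt x k ≤ b i
  bdd : ∀ x ∈ cell, ∀ C, |∑ k, w C k * pt x k + w0 C| ≤ 1
  sound : ∀ x ∈ cell, ∀ C : Clause n, C.Sat x → ∑ k, w C k * pt x k + w0 C ≤ 0

/-- the loss of the clause `C` at the point `y`. -/
noncomputable def Relax.loss {n : ℕ} (P : Relax n) (C : Clause n) (y : Fin P.dim → ℝ) : ℝ :=
  ∑ k, P.w C k * y k + P.w0 C

/-- The relaxation refutes the formula `phi` with margin `de`: the total loss is at least `de` on
the whole polyhedron. -/
def Relax.Refutes {n m : ℕ} (P : Relax n) (phi : Fin m → Clause n) (de : ℝ) : Prop :=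
  ∀ y : Fin P.dim → ℝ, (∀ i, ∑ k, P.A i k * y k ≤ P.b i) → de ≤ ∑ i, P.loss (phi i) y

/-- SETH for linear programs with branch and bound. -/
def Statement : Prop :=
  ∀ (c : ℕ) (ε : ℝ), 0 < ε → ∃ K : ℕ, ∃ γ : ℝ, 0 < γ ∧ ∃ n₀ : ℕ, ∀ n : ℕ, n₀ ≤ n →
    ∀ (M : ℕ) (P : Fin M → Relax n), M ≤ 2 ^ (n ^ c) →
    ∃ (w m : ℕ) (phi : Fin m → Clause n), 1 ≤ m ∧ m ≤ n ^ K ∧ (w : ℝ) ≤ K * Real.logb 2 n ∧
      (∀ i, (phi i).card = w ∧ ((phi i).image Prod.fst).card = w) ∧
      (∀ x, (1 - ε) * (m / 2 ^ w) ≤ (viol phi x : ℝ)) ∧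
      ∀ J : Finset (Fin M),
        (∀ j ∈ J, ∀ j' ∈ J, j ≠ j' → Disjoint (P j).cell (P j').cell) →
        (∀ x, ∃ j ∈ J, x ∈ (P j).cell) →
        (∀ j ∈ J, (P j).Refutes phi ((2 : ℝ) ^ (-(γ * n)))) →
        (2 : ℝ) ^ ((1 - ε) * n) ≤ ∑ j ∈ J, (((P j).size : ℝ) + 1)

end Pool.Agent.H1.LP
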