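import Pool.Agent.H1.LP.Defs
import Pool.Agent.H1.LP.Stmt

/-!
# SETH for linear programs: targets of the modules (helper1, MP_c62aed_lc)

Every module proves one theorem, whose type is written in its header below; the statements of other
modules appear as hypotheses (`S_ONE → S_SEQ` and so on).
-/

namespace Pool.Agent.H1.LP

open Finset

/-! ## LP duality -/

/-- FARKAS -/
def S_FARKAS : Prop :=
  ∀ (E : Type) [AddCommGroup E] [Module ℝ E] (r : ℕ) (a : Fin r → (E →ₗ[ℝ] ℝ)) (f : E →ₗ[ℝ] ℝ),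
    (∀ y, (∀ i, a i y ≤ 0) → f y ≤ 0) →
    ∃ lam : Fin r → ℝ, (∀ i, 0 ≤ lam i) ∧ ∀ y, f y = ∑ i, lam i * a i y

/-- LPD: `S_FARKAS → S_LPD` -/
def S_LPD : Prop :=
  ∀ (D r : ℕ) (A : Fin r → Fin D → ℝ) (b : Fin r → ℝ) (w : Fin D → ℝ) (w0 : ℝ),
    (∃ y : Fin D → ℝ, ∀ i, ∑ k, A i k * y k ≤ b i) →
    (∀ y : Fin D → ℝ, (∀ i, ∑ k, A i k * y k ≤ b i) → 0 ≤ ∑ k, w k * y k + w0) →
    ∃ (lam : Fin r → ℝ) (lam0 : ℝ), 0 ≤ lam0 ∧ (∀ i, 0 ≤ lam i) ∧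
      ∀ y : Fin D → ℝ, ∑ k, w k * y k + w0 = lam0 + ∑ i, lam i * (b i - ∑ k, A i k * y k)

/-- LPC: `S_LPD → S_LPC` -/
def S_LPC : Prop :=
  ∀ (n m : ℕ) (P : Relax n) (phi : Fin m → Clause n) (de : ℝ), P.cell.Nonempty →
    P.Refutes phi de →
    ∃ (lam : Fin P.size → ℝ) (lam0 : ℝ), 0 ≤ lam0 ∧ (∀ i, 0 ≤ lam i) ∧
      ∀ x ∈ P.cell, ∑ i, P.loss (phi i) (P.pt x) - de =
        lam0 + ∑ i, lam i * (P.b i - ∑ k, P.A i k * P.pt x k)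

/-! ## moments -/

/-- CNT: if every value of `f` on `2 s` points is attained twice, then at least `s` points repeat
an earlier value. -/
def S_CNT : Prop :=
  ∀ (s : ℕ) (Q : Type) [DecidableEq Q] (f : Fin (2 * s) → Q),
    (∀ r, ∃ r', r' ≠ r ∧ f r' = f r) →
    s ≤ (univ.filter (fun r : Fin (2 * s) => ∃ r', r' < r ∧ f r' = f r)).card

/-- ONE -/
def S_ONE : Prop :=
  ∀ (B : ℕ) (Q : Type) [Fintype Q] [DecidableEq Q] (D y : ℝ) (N : ℕ) (L : Finset (Fin B))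
    (V : (Fin B → Q) → ℝ) (pr : Fin B → Finset Q),
    0 < D → 1 ≤ y → (∀ x, 0 ≤ V x) →
    (∀ L' ⊆ L, ∀ z, (∑ x with Agree L' x z, V x) * D ^ L'.card ≤ ∑ x, V x) →
    (∀ j, (pr j).card ≤ N) →
    ∑ x, V x * ∏ j ∈ L, (if x j ∈ pr j then y else 1) ≤
      (∑ x, V x) * (1 + (y - 1) * N / D) ^ L.card

/-- SEQ: `S_ONE → S_SEQ` -/
def S_SEQ : Prop :=
  ∀ (B : ℕ) (Q : Type) [Fintype Q] [DecidableEq Q] (D y : ℝ) (L : Finset (Fin B))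
    (V : (Fin B → Q) → ℝ),
    0 < D → 1 ≤ y → (∀ x, 0 ≤ V x) →
    (∀ L' ⊆ L, ∀ z, (∑ x with Agree L' x z, V x) * D ^ L'.card ≤ ∑ x, V x) →
    ∀ N : ℕ, ∑ X : Fin N → Fin B → Q, (∏ r, V (X r)) *
        ∏ r, ∏ j ∈ L, (if ∃ r', r' < r ∧ X r' j = X r j then y else 1) ≤
      ((∑ x, V x) * (1 + (y - 1) * N / D) ^ L.card) ^ N

/-- PAIR: `S_CNT → S_SEQ → S_PAIR` -/
def S_PAIR : Prop :=
  ∀ (B : ℕ) (Q : Type) [Fintype Q] [DecidableEq Q] (D : ℝ) (L : Finset (Fin B))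
    (V : (Fin B → Q) → ℝ) (s : ℕ),
    0 < s → 2 * s ≤ D → (∀ x, 0 ≤ V x) →
    (∀ L' ⊆ L, ∀ z, (∑ x with Agree L' x z, V x) * D ^ L'.card ≤ ∑ x, V x) →
    (∑ X : Fin (2 * s) → Fin B → Q,
        if (∀ j ∈ L, ∀ r, ∃ r', r' ≠ r ∧ X r' j = X r j) then ∏ r, V (X r) else 0) *
      (D / (2 * s)) ^ (s * L.card) ≤ (∑ x, V x) ^ (2 * s) * 4 ^ (s * L.card)

/-- AVG -/
def S_AVG : Prop :=
  ∀ (p B s : ℕ) [Fact p.Prime] (Q : Type) [Fintype Q] [DecidableEq Q]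
    (V : (Fin B → Q) → ℝ) (l : Fin B → ZMod p), (∀ x, 0 ≤ V x) →
    ∑ al : Fin B → Q → ZMod p, ‖FS V l al‖ ^ (2 * s) ≤
      (Fintype.card (Fin B → Q → ZMod p) : ℝ) *
        ∑ X : Fin (2 * s) → Fin B → Q,
          if (∀ j ∈ supp l, ∀ r, ∃ r', r' ≠ r ∧ X r' j = X r j) then ∏ r, V (X r) else 0

/-- MOM: `S_PAIR → S_AVG → S_MOM` -/
def S_MOM : Prop :=
  ∀ (p B s : ℕ) [Fact p.Prime] (Q : Type) [Fintype Q] [DecidableEq Q] (D : ℝ)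
    (I : Finset (Fin B)) (V : (Fin B → Q) → ℝ) (l : Fin B → ZMod p),
    0 < s → 2 * s ≤ D → Dense D I V → (∀ j ∈ I, l j = 0) →
    (∑ al : Fin B → Q → ZMod p, ‖FS V l al‖ ^ (2 * s)) * (D / (8 * s)) ^ (s * (supp l).card) ≤
      (Fintype.card (Fin B → Q → ZMod p) : ℝ) * (∑ x, V x) ^ (2 * s)

/-- TYP: `S_MOM → S_TYP` -/
def S_TYP : Prop :=
  ∀ (p B s g : ℕ) [Fact p.Prime] (Q : Type) [Fintype Q] [DecidableEq Q] (D : ℝ)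
    (ι : Type) [Fintype ι] (I : ι → Finset (Fin B)) (V : ι → (Fin B → Q) → ℝ),
    0 < s → 8 * s * 4 ^ g ≤ D → (∀ i, Dense D (I i) (V i)) →
    (Fintype.card ι : ℝ) * p ^ B < 4 ^ s →
    ∃ al : Fin B → Q → ZMod p, ∀ i, Typ g (I i) (V i) al

/-! ## decomposition into dense pieces -/

/-- DEC -/
def S_DEC : Prop :=
  ∀ (B : ℕ) (Q : Type) [Fintype Q] [DecidableEq Q] [Nonempty Q] (D : ℝ) (im : ℕ)
    (u : (Fin B → Q) → ℝ),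
    1 < D → D ≤ Fintype.card Q → (∀ x, 0 ≤ u x) → (∀ x, u x ≤ 1) →
    ∃ (N : ℕ) (I : Fin N → Finset (Fin B)) (w : Fin N → Fin B → Q)
      (V : Fin N → (Fin B → Q) → ℝ) (V0 : (Fin B → Q) → ℝ),
      N ≤ Fintype.card Q ^ B ∧
      (∀ i, (I i).card ≤ im ∧ Dense D (I i) (V i) ∧ (∀ x, V i x ≠ 0 → Agree (I i) x (w i)) ∧
        ∀ x, V i x ≤ u x) ∧
      (∀ x, 0 ≤ V0 x) ∧ (∀ x, V0 x ≤ u x) ∧ (∀ x, u x = V0 x + ∑ i, V i x) ∧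
      (∑ x, V0 x) * (Fintype.card Q : ℝ) ^ (im + 1) ≤
        D ^ (im + 1) * (Fintype.card Q : ℝ) ^ B

/-! ## the main inequality -/

/-- GEN -/
def S_GEN : Prop :=
  ∀ (p B : ℕ) [NeZero p] (y : ℝ),
    ∑ l : Fin B → ZMod p, y ^ (supp l).card = (1 + ((p : ℝ) - 1) * y) ^ B

/-- PHASE: the part of `l` inside `I` contributes a constant phase. -/
def S_PHASE : Prop :=
  ∀ (p B : ℕ) [NeZero p] (Q : Type) [Fintype Q] [DecidableEq Q] (I : Finset (Fin B))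
    (w : Fin B → Q) (V : (Fin B → Q) → ℝ) (al : Fin B → Q → ZMod p) (l l' : Fin B → ZMod p),
    (∀ x, V x ≠ 0 → Agree I x w) → supp l' ⊆ I →
    FS V (l + l') al = ZMod.stdAddChar (ip l' (val al w)) * FS V l al

/-- LOWZ: `S_PHASE → S_LOWZ` -/
def S_LOWZ : Prop :=
  ∀ (p B d : ℕ) [Fact p.Prime] (Q : Type) [Fintype Q] [DecidableEq Q] (S : Loc p B d)
    (s0 : ℕ) (I : Finset (Fin B)) (w : Fin B → Q) (V : (Fin B → Q) → ℝ)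
    (al : Fin B → Q → ZMod p),
    (∀ x, V x ≠ 0 → Agree I x w) → I.card + s0 ≤ d → Viol S I (val al w) →
    ∑ l ∈ S.La.filter (fun l => (supp l \ I).card ≤ s0),
      ZMod.stdAddChar (- S.ga l) * FS V l al = 0

/-- LOWP: `S_GEN → S_PHASE → S_LOWP` -/
def S_LOWP : Prop :=
  ∀ (p B d : ℕ) [Fact p.Prime] (Q : Type) [Fintype Q] [DecidableEq Q] (S : Loc p B d)
    (g s0 : ℕ) (I : Finset (Fin B)) (w : Fin B → Q) (V : (Fin B → Q) → ℝ)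
    (al : Fin B → Q → ZMod p),
    (∀ x, 0 ≤ V x) → (∀ x, V x ≠ 0 → Agree I x w) → I.card + s0 ≤ d → Typ g I V al →
    4 * p * B ≤ 2 ^ g → ¬ Viol S I (val al w) →
    3 / 8 * ∑ x, V x ≤ (∑ l ∈ S.La.filter (fun l => (supp l \ I).card ≤ s0),
      ZMod.stdAddChar (- S.ga l) * FS V l al).re

/-- HIGH: `S_PHASE → S_HIGH` -/
def S_HIGH : Prop :=
  ∀ (p B d : ℕ) [Fact p.Prime] (Q : Type) [Fintype Q] [DecidableEq Q] (S : Loc p B d)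
    (g s0 : ℕ) (I : Finset (Fin B)) (w : Fin B → Q) (V : (Fin B → Q) → ℝ)
    (al : Fin B → Q → ZMod p),
    (∀ x, 0 ≤ V x) → (∀ x, V x ≠ 0 → Agree I x w) → Typ g I V al →
    ‖∑ l ∈ S.La.filter (fun l => ¬ (supp l \ I).card ≤ s0),
      ZMod.stdAddChar (- S.ga l) * FS V l al‖ ≤
        2 * (p : ℝ) ^ B / 2 ^ (g * (s0 + 1)) * ∑ x, V x

/-- MAIN: `S_LOWZ → S_LOWP → S_HIGH → S_MAIN` -/
def S_MAIN : Prop :=
  ∀ (p B d : ℕ) [Fact p.Prime] (Q : Type) [Fintype Q] [DecidableEq Q] (S : Loc p B d)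
    (g s0 : ℕ) (I : Finset (Fin B)) (w : Fin B → Q) (V : (Fin B → Q) → ℝ)
    (al : Fin B → Q → ZMod p),
    (∀ x, 0 ≤ V x) → (∀ x, V x ≠ 0 → Agree I x w) → I.card + s0 ≤ d → Typ g I V al →
    4 * p * B ≤ 2 ^ g →
    (Viol S I (val al w) → |∑ x, PD S al x * V x| ≤
      2 * (p : ℝ) ^ B / 2 ^ (g * (s0 + 1)) * ∑ x, V x) ∧
    (¬ Viol S I (val al w) →
      (3 / 8 - 2 * (p : ℝ) ^ B / 2 ^ (g * (s0 + 1))) * ∑ x, V x ≤ ∑ x, PD S al x * V x)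

/-- KEY: `S_TYP → S_DEC → S_MAIN → S_KEY` -/
def S_KEY : Prop :=
  ∀ (p B d : ℕ) [Fact p.Prime] (Q : Type) [Fintype Q] [DecidableEq Q] [Nonempty Q]
    (S : Loc p B d) (D : ℝ) (s g s0 im : ℕ) (ι : Type) [Fintype ι] (u : ι → (Fin B → Q) → ℝ),
    0 < s → 1 < D → D ≤ Fintype.card Q → 8 * s * 4 ^ g ≤ D → 4 * p * B ≤ 2 ^ g →
    im + s0 ≤ d → (∀ i x, 0 ≤ u i x) → (∀ i x, u i x ≤ 1) →
    ((Fintype.card ι : ℝ) * (Fintype.card Q : ℝ) ^ B + 1) * p ^ B < 4 ^ s →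
    ∃ al : Fin B → Q → ZMod p,
      (∀ i, -(2 * (p : ℝ) ^ B / 2 ^ (g * (s0 + 1)) * ∑ x, u i x +
          (p : ℝ) ^ B * (D / Fintype.card Q) ^ (im + 1) * (Fintype.card Q : ℝ) ^ B) ≤
        ∑ x, PD S al x * u i x) ∧
      (∀ i (T : Finset (Fin B)) (w : Fin B → Q), (∀ x, u i x ≠ 0 → Agree T x w) →
        Viol S T (val al w) → |∑ x, PD S al x * u i x| ≤
          2 * (p : ℝ) ^ B / 2 ^ (g * (s0 + 1)) * ∑ x, u i x +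
          (p : ℝ) ^ B * (D / Fintype.card Q) ^ (im + 1) * (Fintype.card Q : ℝ) ^ B) ∧
      (3 / 8 - 2 * (p : ℝ) ^ B / 2 ^ (g * (s0 + 1))) * (Fintype.card Q : ℝ) ^ B ≤
        ∑ x, PD S al x

/-! ## the linear system -/

/-- DISP: sets of size `k` such that any `t` of them meet every set of size `4 t`. -/
def S_DISP : Prop :=
  ∀ (E B : ℕ), 4 ≤ E → E ≤ B → 2 * (4 * E + 1) * E ^ 2 ≤ B →
    ∃ T : Fin (4 * E * B) → Finset (Fin B), (∀ i, (T i).card = 2 * (4 * E + 1) * E ^ 2) ∧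
      ∀ (S : Finset (Fin (4 * E * B))) (U : Finset (Fin B)), B / E ≤ S.card →
        4 * (B / E) ≤ U.card → ∃ i ∈ S, ∃ j ∈ U, j ∈ T i

/-- NUMC: number of short coefficient vectors -/
def S_NUMC : Prop :=
  ∀ (E B p t : ℕ) [NeZero p], 1 ≤ E → 2 ≤ p →
    ((univ.filter (fun c : Fin (4 * E * B) → ZMod p => (supp c).card ≤ 2 * t)).card : ℝ) ≤
      ((p : ℝ) * (4 * E)) ^ (2 * t) * 3 ^ B

/-- COL: number of matrices (given by columns) killed by `c` on `U` -/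
def S_COL : Prop :=
  ∀ (p B R : ℕ) [Fact p.Prime] (T : Fin R → Finset (Fin B)) (c : Fin R → ZMod p)
    (U : Finset (Fin B)) (v : ℕ),
    (v ≤ (U.filter (fun j => ∃ i, c i ≠ 0 ∧ j ∈ T i)).card) →
    (univ.filter (fun a : Fin B → Fin R → ZMod p =>
      ∀ j ∈ U, ∑ i, c i * (if j ∈ T i then a j i else 0) = 0)).card * p ^ v ≤ p ^ (R * B)

/-- COEF: `S_DISP → S_NUMC → S_COL → S_COEF` -/
def S_COEF : Prop :=
  ∀ (E B p : ℕ) [Fact p.Prime], 8 ≤ E → 2 * (4 * E + 1) * E ^ 2 ≤ B → 2 ^ (4 * E) < p →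
    ∃ (T : Fin (4 * E * B) → Finset (Fin B)) (A : Fin (4 * E * B) → Fin B → ZMod p),
      (∀ i, (T i).card = 2 * (4 * E + 1) * E ^ 2) ∧ (∀ i, supp (A i) ⊆ T i) ∧
      ∀ c : Fin (4 * E * B) → ZMod p, B / E < (supp c).card → (supp c).card ≤ 2 * (B / E) →
        B - 8 * (B / E) < (supp (comb A c)).card

/-- SMALL: the supports of short dependencies have a small union. -/
def S_SMALL : Prop :=
  ∀ (p B R t d : ℕ) [Fact p.Prime] (A : Fin R → Fin B → ZMod p),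
    (∀ c : Fin R → ZMod p, t < (supp c).card → (supp c).card ≤ 2 * t →
      d < (supp (comb A c)).card) →
    ∃ U : Finset (Fin R), U.card ≤ 2 * t ∧
      ∀ c : Fin R → ZMod p, (supp c).card ≤ 2 * t → comb A c = 0 → supp c ⊆ U

/-- RHS: a right hand side, zero on `U`, far from all `A z`. -/
def S_RHS : Prop :=
  ∀ (E B p : ℕ) [Fact p.Prime] (A : Fin (4 * E * B) → Fin B → ZMod p)
    (U : Finset (Fin (4 * E * B))), 1 ≤ E → 1 ≤ B → 2 ^ (4 * E) < p → U.card ≤ B →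
    ∃ be : Fin (4 * E * B) → ZMod p, (∀ i ∈ U, be i = 0) ∧
      ∀ z : Fin B → ZMod p, (4 * E - 3) * B ≤ (univ.filter (fun i => ip (A i) z ≠ be i)).card

/-- BASE: `S_COEF → S_SMALL → S_RHS → S_BASE` -/
def S_BASE : Prop :=
  ∀ (E B : ℕ), 8 ≤ E → 2 * (4 * E + 1) * E ^ 2 ≤ B →
    ∃ (p : ℕ) (_ : Fact p.Prime), p ≤ 2 ^ (4 * E + 1) ∧
      ∃ (T : Fin (4 * E * B) → Finset (Fin B))
        (Y : Sys p B (4 * E * B) (B / E) (B - 8 * (B / E))),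
        (∀ i, (T i).card = 2 * (4 * E + 1) * E ^ 2) ∧ (∀ i, supp (Y.A i) ⊆ T i) ∧
        ∀ z : Fin B → ZMod p,
          (4 * E - 3) * B ≤ (univ.filter (fun i => ip (Y.A i) z ≠ Y.be i)).card

/-- LOC: the local system of a linear system. -/
def S_LOC : Prop :=
  ∀ (p B R t d : ℕ) [Fact p.Prime] (Y : Sys p B R t d), 1 ≤ t →
    ∃ S : Loc p B d, ∀ i, (supp (Y.A i)).card ≤ d → Y.A i ∈ S.La ∧ S.ga (Y.A i) = Y.be i

/-! ## formulas -/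

/-- ENC -/
def S_ENC : Prop :=
  ∀ (n B b : ℕ), B * b ≤ n →
    ∃ (asg : (Fin B → Fin b → Bool) → (Fin n → Bool))
      (dec : (Fin n → Bool) → (Fin B → Fin b → Bool))
      (cl : Finset (Fin B) → (Fin B → Fin b → Bool) → Clause n),
      (∀ x, dec (asg x) = x) ∧
      (∀ T v y, (cl T v).Sat y ↔ ¬ Agree T (dec y) v) ∧
      ∀ T v, (cl T v).card = T.card * b ∧ ((cl T v).image Prod.fst).card = T.card * b

/-- FORM: the formula of a table -/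
def S_FORM : Prop :=
  ∀ (p B R k b n : ℕ) [Fact p.Prime] (T : Fin R → Finset (Fin B))
    (A : Fin R → Fin B → ZMod p) (be : Fin R → ZMod p)
    (al : Fin B → (Fin b → Bool) → ZMod p)
    (dec : (Fin n → Bool) → (Fin B → Fin b → Bool))
    (cl : Finset (Fin B) → (Fin B → Fin b → Bool) → Clause n),
    (∀ i, (T i).card = k) → (∀ i, supp (A i) ⊆ T i) →
    (∀ T v y, (cl T v).Sat y ↔ ¬ Agree T (dec y) v) →
    ∃ (m : ℕ) (phi : Fin m → Clause n), m ≤ R * 2 ^ (b * k) ∧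
      (∀ a, ∃ (i : Fin R) (v : Fin B → Fin b → Bool), (∀ j, j ∉ T i → v j = fun _ => false) ∧
        phi a = cl (T i) v ∧ ip (A i) (val al v) ≠ be i) ∧
      ∀ y, viol phi y = (univ.filter (fun i => ip (A i) (val al (dec y)) ≠ be i)).card

/-! ## abstract weight inequality -/

/-- ABST -/
def S_ABST : Prop :=
  ∀ (X : Type) [Fintype X] [DecidableEq X] (H : X → ℝ) (et si de : ℝ) (m : ℕ)
    (ι : Type) (J : Finset ι) (S : ι → Finset X) (r : ι → ℕ)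
    (s : ∀ j, Fin (r j) → X → ℝ) (lam : ∀ j, Fin (r j) → ℝ) (lam0 : ι → ℝ)
    (ls : ι → Fin m → X → ℝ),
    0 ≤ et → 0 ≤ si → 0 < de →
    (∀ j ∈ J, ∀ j' ∈ J, j ≠ j' → Disjoint (S j) (S j')) → (∀ x, ∃ j ∈ J, x ∈ S j) →
    (∀ j ∈ J, ∀ i, ∀ x ∈ S j, 0 ≤ s j i x) → (∀ j ∈ J, ∀ i, 0 ≤ lam j i) →
    (∀ j ∈ J, 0 ≤ lam0 j) → (∀ j ∈ J, ∀ a, ∀ x ∈ S j, |ls j a x| ≤ 1) →
    (∀ j ∈ J, ∀ x ∈ S j, ∑ a, ls j a x - de = lam0 j + ∑ i, lam j i * s j i x) →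
    (∀ j ∈ J, ∀ i, ∀ c : ℝ, (∀ x ∈ S j, s j i x ≤ c) → 0 ≤ c →
      -(et * ∑ x ∈ S j, s j i x + si * Fintype.card X * c) ≤ ∑ x ∈ S j, H x * s j i x) →
    (∀ j ∈ J, -(et * (S j).card + si * Fintype.card X) ≤ ∑ x ∈ S j, H x) →
    (∀ j ∈ J, ∀ a, ∑ x ∈ S j, H x * ls j a x ≤
      et * ∑ x ∈ S j, |ls j a x| + 2 * si * Fintype.card X) →
    (Fintype.card X : ℝ) / 4 ≤ ∑ x, H x → 0 < Fintype.card X →
    de ≤ 8 * m * et + 12 * m * si * ∑ j ∈ J, ((r j : ℝ) + 1)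

/-! ## assembly -/

/-- the width `k` of the equations, in blocks -/
def kk (E : ℕ) : ℕ := 2 * (4 * E + 1) * E ^ 2

/-- the relative error -/
noncomputable def eta (E g B : ℕ) : ℝ := 2 * 2 ^ ((4 * E + 1) * B) / 2 ^ (g * (B / E + 1))

/-- the absolute error -/
noncomputable def vsi (E g B : ℕ) : ℝ :=
  2 ^ ((4 * E + 1) * B) * (2 ^ (4 * g) / 2 ^ (4 * E * g)) ^ (B - 9 * (B / E) + 1)

/-- CORE: `S_KEY → S_BASE → S_LOC → S_ENC → S_FORM → S_LPC → S_ABST → S_CORE` -/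
def S_CORE : Prop :=
  ∀ (E g s n B M : ℕ) (P : Fin M → Relax n), 16 ≤ E → 1 ≤ g → 0 < s → 2 * kk E ≤ B →
    B * (4 * E * g) ≤ n → 4 * 2 ^ (4 * E + 1) * B ≤ 2 ^ g → 8 * s ≤ 4 ^ g →
    ((M : ℝ) * (2 ^ n + 2 * (4 * E * B * 2 ^ (4 * E * g * kk E)) + 1) * 2 ^ (4 * E * g * B) + 1) *
      (2 ^ (4 * E + 1)) ^ B < 4 ^ s →
    ∃ (m : ℕ) (phi : Fin m → Clause n), 1 ≤ m ∧ m ≤ 4 * E * B * 2 ^ (4 * E * g * kk E) ∧
      (∀ i, (phi i).card = 4 * E * g * kk E ∧ ((phi i).image Prod.fst).card = 4 * E * g * kk E) ∧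
      (∀ x, (1 - 1 / (E : ℝ)) * (m / 2 ^ (4 * E * g * kk E)) ≤ (viol phi x : ℝ)) ∧
      ∀ (J : Finset (Fin M)) (de : ℝ), 0 < de →
        (∀ j ∈ J, (P j).size ≤ 2 ^ n) →
        (∀ j ∈ J, ∀ j' ∈ J, j ≠ j' → Disjoint (P j).cell (P j').cell) →
        (∀ x, ∃ j ∈ J, x ∈ (P j).cell) →
        (∀ j ∈ J, (P j).Refutes phi de) →
        de ≤ 8 * m * eta E g B + 12 * m * vsi E g B * ∑ j ∈ J, (((P j).size : ℝ) + 1)

/-- PAR: choice of the parameters -/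
def S_PAR : Prop :=
  ∀ (c : ℕ) (ε : ℝ), 0 < ε → ∃ (E K : ℕ) (γ : ℝ), 16 ≤ E ∧ 1 / (E : ℝ) ≤ ε ∧ 0 < γ ∧
    ∃ n₀ : ℕ, ∀ n : ℕ, n₀ ≤ n → ∃ g s B : ℕ, 1 ≤ g ∧ 0 < s ∧ 2 * kk E ≤ B ∧
      B * (4 * E * g) ≤ n ∧ 4 * 2 ^ (4 * E + 1) * B ≤ 2 ^ g ∧ 8 * s ≤ 4 ^ g ∧
      ((2 : ℝ) ^ (n ^ c) * (2 ^ n + 2 * (4 * E * B * 2 ^ (4 * E * g * kk E)) + 1) *
        2 ^ (4 * E * g * B) + 1) * (2 ^ (4 * E + 1)) ^ B < 4 ^ s ∧
      4 * E * B * 2 ^ (4 * E * g * kk E) ≤ n ^ K ∧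
      ((4 * E * g * kk E : ℕ) : ℝ) ≤ K * Real.logb 2 n ∧
      ∀ (m : ℕ) (W : ℝ), 1 ≤ m → m ≤ n ^ K →
        (2 : ℝ) ^ (-(γ * n)) ≤ 8 * m * eta E g B + 12 * m * vsi E g B * W →
        (2 : ℝ) ^ ((1 - ε) * n) ≤ W

end Pool.Agent.H1.LP
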