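import Pool.Agent.H1.LP.Core3
import Pool.Agent.H4.LP.ABST
import Pool.Agent.H4.LP.AVG
import Pool.Agent.H88.LP.BASE
import Pool.Agent.H88.LP.COEF
import Pool.Agent.H88.LP.ENC
import Pool.Agent.H88.LP.FORM
import Pool.Agent.H73.LP.A
import Pool.Agent.H73.LP.B
import Pool.Agent.H29.LP.COL
import Pool.Agent.H29.LP.FARKAS
import Pool.Agent.H29.LP.NUMC
import Pool.Agent.H29.LP.SMALL
import Pool.Agent.H2.LP.DEC
import Pool.Agent.H2.LP.RHS
import Pool.Agent.H15.LP.DISP
import Pool.Agent.H15.LP.KEY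
import Pool.Agent.H15.LP.LOWP
import Pool.Agent.H14.LP.Gen
import Pool.Agent.H58.LP.HIGH
import Pool.Agent.H58.LP.MAIN
import Pool.Agent.H37.LP.TYP

/-!
# SETH for linear programs: assembly of the modules (helper1)
-/

namespace Pool.Agent.H1.LP

theorem pair' : S_PAIR := H73.LP.pair H73.LP.cnt (H73.LP.seq H73.LP.one)

theorem typ' : S_TYP := H37.LP.typ (H14.LP.mom pair' H4.LP.avg)

theorem main' : S_MAIN :=
  H58.LP.main (H73.LP.lowz H73.LP.phase) (H15.LP.lowp H14.LP.gen H73.LP.phase)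
    (H58.LP.high H73.LP.phase)

theorem key'' : S_KEY := H15.LP.key typ' H2.LP.dec main'

theorem base' : S_BASE :=
  H88.LP.base (H88.LP.coef H15.LP.disp H29.LP.numc H29.LP.col) H29.LP.small H2.LP.rhs

theorem core' : S_CORE2 :=
  core key'' base' H2.LP.loc H88.LP.enc H88.LP.form (H29.LP.lpc (H29.LP.lpd H29.LP.farkas))
    H4.LP.abst

end Pool.Agent.H1.LP
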