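import Pool.Agent.H62.LP.T1
import Pool.Agent.H62.LP.T4

/-!
# Row CLM of the board rwl (helper62, MP_521601_pr)

Measurability of the events of the problem.
-/

set_option autoImplicit false

open MeasureTheory ProbabilityTheory Filter Topology
open scoped ENNReal NNReal

namespace Pool.Agent.H1.LP

open Pool.Agent.H62.LP

theorem clm_cluster (hFMS : T_FMS) (d : ℕ) (x y : Vt d) :
    MeasurableSet {N : Cycle (Vt d) → ℕ | y ∈ cluster N x} := by
  classical
  have : Countable (Cycle (Vt d)) := inferInstanceAs (Countable (Quotient _))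
  refine hFMS (Cycle (Vt d))
    (fun S => Relation.ReflTransGen (fun u v => ∃ c, c ∈ S ∧ Trav c u v) x y) fun S => ?_
  constructor
  · intro h
    induction h with
    | refl => exact ⟨∅, by simp, Relation.ReflTransGen.refl⟩
    | tail _ hs ih =>
      obtain ⟨c, hc, ht⟩ := hs
      obtain ⟨F, hF1, hF2⟩ := ih
      refine ⟨insert c F, ?_, ?_⟩
      · intro e he
        rw [Finset.mem_coe, Finset.mem_insert] at he
        rcases he with rfl | he
        · exact hc
        · exact hF1 he
      · refine Relation.ReflTransGen.tail (hF2.lift id ?_) ⟨c, ?_, ht⟩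
        · rintro a b ⟨e, he, hab⟩
          refine ⟨e, ?_, hab⟩
          rw [Finset.mem_coe] at he ⊢
          exact Finset.mem_insert_of_mem he
        · rw [Finset.mem_coe]
          exact Finset.mem_insert_self _ _
  · rintro ⟨F, hF1, hF2⟩
    refine hF2.lift id ?_
    rintro a b ⟨e, he, hab⟩
    exact ⟨e, hF1 he, hab⟩

theorem pf_CLM (hFMS : T_FMS) : T_CLM := by
  classical
  intro d
  refine ⟨fun x => ?_, fun n m => ?_⟩
  · have h1 : {N : Cycle (Vt d) → ℕ | (cluster N x).Infinite} =
        ⋂ F : Finset (Vt d), ⋃ y : Vt d, ⋃ (_ : y ∉ F), {N | y ∈ cluster N x} := by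
      ext N
      simp only [Set.mem_ofPred_eq, Set.mem_iInter, Set.mem_iUnion, exists_prop]
      constructor
      · intro h F
        obtain ⟨y, hy, hyF⟩ := h.exists_notMem_finset F
        exact ⟨y, hyF, hy⟩
      · intro h hfin
        obtain ⟨y, hy, hyc⟩ := h hfin.toFinset
        exact hy (hfin.mem_toFinset.2 hyc)
    rw [h1]
    exact MeasurableSet.iInter fun F => MeasurableSet.iUnion fun y =>
      MeasurableSet.iUnion fun _ => clm_cluster hFMS d x y
  · have h1 : {N : Cycle (Vt d) → ℕ | Cross n m N} =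
        ⋃ x : Vt d, ⋃ y : Vt d, ⋃ (_ : nm x ≤ n ∧ nm y = m), {N | y ∈ cluster N x} := by
      ext N
      simp only [Set.mem_ofPred_eq, Set.mem_iUnion, exists_prop]
      unfold Cross
      constructor
      · rintro ⟨x, y, h1, h2, h3⟩
        exact ⟨x, y, ⟨h1, h2⟩, h3⟩
      · rintro ⟨x, y, ⟨h1, h2⟩, h3⟩
        exact ⟨x, y, h1, h2, h3⟩
    rw [h1]
    exact MeasurableSet.iUnion fun x => MeasurableSet.iUnion fun y =>
      MeasurableSet.iUnion fun _ => clm_cluster hFMS d x y

end Pool.Agent.H1.LP
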