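import Pool.Agent.H62.LP.T1
import Pool.Agent.H62.LP.T4

/-!
# Row CSL of the board rwl (helper62, MP_521601_pr)

A local measurable choice of the crossings.
-/

set_option autoImplicit false

open MeasureTheory ProbabilityTheory Filter Topology
open scoped ENNReal NNReal

namespace Pool.Agent.H1.LP

open Pool.Agent.H62.LP

/-- the crossings without the empty loop -/
def CrC (n β K : ℕ) (x : V3) : Type :=
  {p : Cr // IsCr (sc n x) n (β * n) (K * (β * n)) p ∧ (Cycle.nil : Lp) ∉ p.2}

/-- the loops of the crossing are present -/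
def CrE (n β K : ℕ) (x : V3) (p : CrC n β K x) : Set (Lp → ℕ) :=
  {N | (p.1.2 : Set Lp) ⊆ sp N}

theorem crE_meas (n β K : ℕ) (x : V3) (p : CrC n β K x) : MeasurableSet (CrE n β K x p) := by
  have h1 : CrE n β K x p = ⋂ c ∈ p.1.2, {N : Lp → ℕ | 1 ≤ N c} := by
    ext N
    simp only [CrE, sp, Set.mem_ofPred_eq, Set.mem_iInter]
    constructor
    · intro h c hc
      exact h hc
    · intro h c hc
      exact h c hc
  rw [h1]
  refine Finset.measurableSet_biInter _ fun c _ => ?_
  exact measurableSet_le measurable_const (measurable_pi_apply c)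

theorem erase_isCr (z : V3) (n m r : ℕ) (p : Finset V3 × Finset Lp) (h : IsCr z n m r p)
    (q : Finset Lp) (hq : ∀ c, c ∈ q ↔ c ∈ p.2 ∧ c ≠ Cycle.nil) : IsCr z n m r (p.1, q) := by
  obtain ⟨h1, h2, h3, h4, h5⟩ := h
  refine ⟨fun c hc u hu => h1 c ((hq c).1 hc).1 u hu, h2, h3, h4, fun u hu v hv => ?_⟩
  have h6 := h5 u hu v hv
  unfold Conn at h6 ⊢
  refine h6.lift id ?_
  rintro a b ⟨c, hc, ha, hb⟩
  refine ⟨c, (hq c).2 ⟨hc, ?_⟩, ha, hb⟩
  rintro rfl
  exact Cycle.notMem_nil a ha

theorem pf_CSL (hSEL : T_SEL) : T_CSL := by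
  classical
  intro n β K
  have hC : ∀ x : V3, Countable (CrC n β K x) := by
    intro x
    have : Countable Lp := inferInstanceAs (Countable (Quotient _))
    exact inferInstanceAs (Countable {p : Cr // IsCr (sc n x) n (β * n) (K * (β * n)) p ∧
      (Cycle.nil : Lp) ∉ p.2})
  have hD : ∀ x : V3, ∃ D : (Lp → ℕ) → Option (CrC n β K x),
      (∀ c, MeasurableSet {ω | D ω = some c}) ∧
      (∀ ω c, D ω = some c → ω ∈ CrE n β K x c) ∧
      (∀ ω, D ω = none → ∀ c, ω ∉ CrE n β K x c) ∧
      ∀ ω ω', (∀ c, ω ∈ CrE n β K x c ↔ ω' ∈ CrE n β K x c) → D ω = D ω' := by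
    intro x
    have := hC x
    exact hSEL (Lp → ℕ) (CrC n β K x) (CrE n β K x) (crE_meas n β K x)
  choose D hD1 hD2 hD3 hD4 using hD
  refine ⟨fun x N => (D x N).map Subtype.val, ⟨?_, ?_, ?_, ?_⟩⟩
  · intro x p
    by_cases hp : IsCr (sc n x) n (β * n) (K * (β * n)) p ∧ (Cycle.nil : Lp) ∉ p.2
    · have h1 : {N : Lp → ℕ | (D x N).map Subtype.val = some p} =
          {N | D x N = some ⟨p, hp⟩} := by
        ext N
        simp only [Set.mem_ofPred_eq, Option.map_eq_some_iff]
        constructor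
        · rintro ⟨a, ha, hap⟩
          rw [ha]
          congr 1
          exact Subtype.ext hap
        · intro h
          exact ⟨⟨p, hp⟩, h, rfl⟩
      rw [h1]
      exact hD1 x ⟨p, hp⟩
    · have h1 : {N : Lp → ℕ | (D x N).map Subtype.val = some p} = ∅ := by
        rw [Set.eq_empty_iff_forall_notMem]
        intro N hN
        simp only [Set.mem_ofPred_eq, Option.map_eq_some_iff] at hN
        obtain ⟨a, ha, hap⟩ := hN
        apply hp
        rw [← hap]
        exact a.2
      rw [h1]
      exact MeasurableSet.empty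
  · intro x N p h
    simp only [Option.map_eq_some_iff] at h
    obtain ⟨a, ha, hap⟩ := h
    rw [← hap]
    exact ⟨a.2.1, hD2 x N a ha⟩
  · intro x N h
    simp only [Option.map_eq_none_iff] at h
    rintro ⟨p, hp, hps⟩
    have hq : ∀ c, c ∈ p.2.erase Cycle.nil ↔ c ∈ p.2 ∧ c ≠ Cycle.nil := by
      intro c
      rw [Finset.mem_erase]
      exact and_comm
    refine hD3 x N h ⟨(p.1, p.2.erase Cycle.nil), erase_isCr _ _ _ _ p hp _ hq, ?_⟩ ?_
    · exact Finset.notMem_erase _ _
    · intro c hc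
      have hc' : c ∈ p.2.erase Cycle.nil := hc
      exact hps ((hq c).1 hc').1
  · intro x N N' h
    show (D x N).map Subtype.val = (D x N').map Subtype.val
    congr 1
    apply hD4
    intro c
    have hc1 : ∀ e ∈ c.1.2, N e = N' e := by
      intro e he
      refine h e ?_ (fun u hu => c.2.1.1 e he u hu)
      rintro rfl
      exact c.2.2 he
    constructor
    · intro hN e he
      have h1 : 1 ≤ N e := hN he
      show 1 ≤ N' e
      rw [← hc1 e he]
      exact h1
    · intro hN e he
      have h1 : 1 ≤ N' e := hN he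
      show 1 ≤ N e
      rw [hc1 e he]
      exact h1

end Pool.Agent.H1.LP
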