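import Pool.Agent.H1.LP.Targets

/-!
# SETH for linear programs: the key statement for unbounded functions (helper1)
-/

namespace Pool.Agent.H1.LP

open Finset

theorem key' (hK : S_KEY) (p B d : ℕ) [Fact p.Prime] (Q : Type) [Fintype Q] [DecidableEq Q]
    [Nonempty Q] (S : Loc p B d) (D : ℝ) (s g s0 im : ℕ) (ι : Type) [Fintype ι]
    (f : ι → (Fin B → Q) → ℝ) (hs : 0 < s) (hD : 1 < D) (hDQ : D ≤ Fintype.card Q)
    (h8 : 8 * s * 4 ^ g ≤ D) (h4 : 4 * p * B ≤ 2 ^ g) (hd : im + s0 ≤ d)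
    (hf : ∀ i x, 0 ≤ f i x)
    (hc : ((Fintype.card ι : ℝ) * (Fintype.card Q : ℝ) ^ B + 1) * p ^ B < 4 ^ s) :
    ∃ al : Fin B → Q → ZMod p,
      (∀ i (c : ℝ), (∀ x, f i x ≤ c) →
        -(2 * (p : ℝ) ^ B / 2 ^ (g * (s0 + 1)) * ∑ x, f i x +
          (p : ℝ) ^ B * (D / Fintype.card Q) ^ (im + 1) * (Fintype.card Q : ℝ) ^ B * c) ≤
        ∑ x, PD S al x * f i x) ∧
      (∀ i (T : Finset (Fin B)) (w : Fin B → Q) (c : ℝ), (∀ x, f i x ≤ c) →
        (∀ x, f i x ≠ 0 → Agree T x w) →
        Viol S T (val al w) → |∑ x, PD S al x * f i x| ≤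
          2 * (p : ℝ) ^ B / 2 ^ (g * (s0 + 1)) * ∑ x, f i x +
          (p : ℝ) ^ B * (D / Fintype.card Q) ^ (im + 1) * (Fintype.card Q : ℝ) ^ B * c) ∧
      (3 / 8 - 2 * (p : ℝ) ^ B / 2 ^ (g * (s0 + 1))) * (Fintype.card Q : ℝ) ^ B ≤
        ∑ x, PD S al x := by
  classical
  have hne : (univ : Finset (Fin B → Q)).Nonempty := univ_nonempty
  let m : ι → ℝ := fun i => univ.sup' hne (f i)
  have hm : ∀ i x, f i x ≤ m i := fun i x => Finset.le_sup' (f i) (mem_univ x)
  have hm0 : ∀ i, 0 ≤ m i := fun i => (hf i (Classical.arbitrary _)).trans (hm i _)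
  have hmc : ∀ i c, (∀ x, f i x ≤ c) → m i ≤ c := fun i c h => Finset.sup'_le _ _ (fun x _ => h x)
  obtain ⟨al, h1, h2, h3⟩ := hK p B d Q S D s g s0 im ι (fun i x => f i x / m i) hs hD hDQ h8 h4 hd
    (fun i x => div_nonneg (hf i x) (hm0 i))
    (fun i x => div_le_one_of_le₀ (hm i x) (hm0 i)) hc
  set et : ℝ := 2 * (p : ℝ) ^ B / 2 ^ (g * (s0 + 1)) with het
  set vs : ℝ := (p : ℝ) ^ B * (D / Fintype.card Q) ^ (im + 1) * (Fintype.card Q : ℝ) ^ B with hvs
  have hvs0 : 0 ≤ vs := by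
    have : 0 ≤ D / (Fintype.card Q : ℝ) := div_nonneg (by linarith) (by positivity)
    positivity
  have hsum : ∀ i, 0 < m i → ∑ x, f i x = m i * ∑ x, f i x / m i := by
    intro i hi
    rw [mul_sum]
    refine sum_congr rfl fun x _ => ?_
    field_simp
  have hsum' : ∀ i, 0 < m i →
      ∑ x, PD S al x * f i x = m i * ∑ x, PD S al x * (f i x / m i) := by
    intro i hi
    rw [mul_sum]
    refine sum_congr rfl fun x _ => ?_
    field_simp
  have hz : ∀ i, m i = 0 → ∀ x, f i x = 0 := fun i hi x =>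
    le_antisymm (hi ▸ hm i x) (hf i x)
  refine ⟨al, ?_, ?_, h3⟩
  · intro i c hic
    rcases eq_or_lt_of_le (hm0 i) with h | h
    · have h0 := hz i h.symm
      have hc0 : 0 ≤ c := by
        have := hmc i c hic
        rw [← h] at this
        exact this
      simp only [h0, sum_const_zero, mul_zero, zero_add]
      have := mul_nonneg hvs0 hc0
      linarith
    · have hmi := hmc i c hic
      rw [hsum i h, hsum' i h]
      have := mul_le_mul_of_nonneg_left (h1 i) h.le
      have h5 : vs * m i ≤ vs * c := mul_le_mul_of_nonneg_left hmi hvs0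
      calc -(et * (m i * ∑ x, f i x / m i) + vs * c)
          ≤ m i * -(et * ∑ x, f i x / m i + vs) := by nlinarith
        _ ≤ _ := this
  · intro i T w c hic hT hV
    rcases eq_or_lt_of_le (hm0 i) with h | h
    · have h0 := hz i h.symm
      have hc0 : 0 ≤ c := by
        have := hmc i c hic
        rw [← h] at this
        exact this
      simp only [h0, sum_const_zero, mul_zero, zero_add, abs_zero]
      exact mul_nonneg hvs0 hc0
    · have hmi := hmc i c hic
      rw [hsum i h, hsum' i h, abs_mul, abs_of_pos h]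
      have := mul_le_mul_of_nonneg_left (h2 i T w (fun x hx => hT x (by
        intro h0
        apply hx
        simp [h0])) hV) h.le
      have h5 : vs * m i ≤ vs * c := mul_le_mul_of_nonneg_left hmi hvs0
      refine this.trans ?_
      nlinarith

end Pool.Agent.H1.LP
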