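import Pool.Agent.H1.LP.Stmt

/-!
# SETH for linear programs: the final statement (helper1, MP_c62aed_lc)
-/

namespace Pool.Agent.H1.LP

/-- The inequalities of the relaxation with index in `I` refute the formula `phi` with margin `de`:
the total loss is at least `de` on the polyhedron defined by these inequalities alone. -/
def Relax.RefutesBy {n m : ℕ} (P : Relax n) (I : Finset (Fin P.size)) (phi : Fin m → Clause n)
    (de : ℝ) : Prop :=
  ∀ y : Fin P.dim → ℝ, (∀ i ∈ I, ∑ k, P.A i k * y k ≤ P.b i) → de ≤ ∑ i, P.loss (phi i) y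

/-- SETH for linear programs with branch and bound and with adaptive choice of the inequalities. -/
def Statement2 : Prop :=
  ∀ (c : ℕ) (ε : ℝ), 0 < ε → ∃ K : ℕ, ∃ γ : ℝ, 0 < γ ∧ ∃ n₀ : ℕ, ∀ n : ℕ, n₀ ≤ n →
    ∀ (M : ℕ) (P : Fin M → Relax n), M ≤ 2 ^ (n ^ c) → (∀ j, (P j).size ≤ 2 ^ (n ^ c)) →
    ∃ (w m : ℕ) (phi : Fin m → Clause n), 1 ≤ m ∧ m ≤ n ^ K ∧ (w : ℝ) ≤ K * Real.logb 2 n ∧
      (∀ i, (phi i).card = w ∧ ((phi i).image Prod.fst).card = w) ∧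
      (∀ x, (1 - ε) * (m / 2 ^ w) ≤ (viol phi x : ℝ)) ∧
      ∀ (J : Finset (Fin M)) (I : (j : Fin M) → Finset (Fin (P j).size)),
        (∀ j ∈ J, ∀ j' ∈ J, j ≠ j' → Disjoint (P j).cell (P j').cell) →
        (∀ x, ∃ j ∈ J, x ∈ (P j).cell) →
        (∀ j ∈ J, (P j).RefutesBy (I j) phi ((2 : ℝ) ^ (-(γ * n)))) →
        (2 : ℝ) ^ ((1 - ε) * n) ≤ ∑ j ∈ J, (((I j).card : ℝ) + 1)

end Pool.Agent.H1.LP
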