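import Pool.Agent.H1.LP.Core1
import Pool.Agent.H1.LP.Stmt2

/-!
# SETH for linear programs: the core statement (helper1)
-/

namespace Pool.Agent.H1.LP

open Finset

open Classical in
/-- extension of a partial block assignment by the default value. -/
noncomputable def ext {B b : ℕ} (T : Finset (Fin B)) (v : {j // j ∈ T} → (Fin b → Bool)) :
    Fin B → Fin b → Bool :=
  fun j => if h : j ∈ T then v ⟨j, h⟩ else fun _ => false

/-- index type of the family of functions -/
abbrev Idx {B R : ℕ} (M N0 b : ℕ) (T : Fin R → Finset (Fin B)) : Type :=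
  Fin M × (Fin N0 ⊕ ((Bool × (Σ i : Fin R, ({j // j ∈ T i} → (Fin b → Bool)))) ⊕ Unit))

theorem card_idx {B R : ℕ} (M N0 b k : ℕ) (T : Fin R → Finset (Fin B))
    (hT : ∀ i, (T i).card = k) :
    Fintype.card (Idx M N0 b T) = M * (N0 + (2 * (R * 2 ^ (b * k)) + 1)) := by
  have h : ∀ i : Fin R, Fintype.card ({j // j ∈ T i} → (Fin b → Bool)) = 2 ^ (b * k) := by
    intro i
    simp [hT i, pow_mul]
  simp only [Idx, Fintype.card_prod, Fintype.card_sum, Fintype.card_sigma, h, Fintype.card_fin,
    Fintype.card_bool, Fintype.card_unit, sum_const, card_univ, smul_eq_mul]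

open Classical in
/-- the family of functions -/
noncomputable def fam {B R n b M N0 : ℕ} (T : Fin R → Finset (Fin B)) (P : Fin M → Relax n)
    (asg : (Fin B → Fin b → Bool) → (Fin n → Bool))
    (cl : Finset (Fin B) → (Fin B → Fin b → Bool) → Clause n) :
    Idx M N0 b T → (Fin B → Fin b → Bool) → ℝ
  | (j, Sum.inl a) => fun x =>
      if h : a.1 < (P j).size ∧ asg x ∈ (P j).cell then
        (P j).b ⟨a.1, h.1⟩ - ∑ k, (P j).A ⟨a.1, h.1⟩ k * (P j).pt (asg x) k else 0
  | (j, Sum.inr (Sum.inl (sg, ⟨i, v⟩))) => fun x =>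
      if asg x ∈ (P j).cell then
        max ((if sg then (1 : ℝ) else -1) *
          (P j).loss (cl (T i) (ext (T i) v)) ((P j).pt (asg x))) 0 else 0
  | (j, Sum.inr (Sum.inr _)) => fun x => if asg x ∈ (P j).cell then 1 else 0

theorem fam_nonneg {B R n b M N0 : ℕ} (T : Fin R → Finset (Fin B)) (P : Fin M → Relax n)
    (asg : (Fin B → Fin b → Bool) → (Fin n → Bool))
    (cl : Finset (Fin B) → (Fin B → Fin b → Bool) → Clause n) (i : Idx M N0 b T)
    (x : Fin B → Fin b → Bool) : 0 ≤ fam T P asg cl i x := by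
  rcases i with ⟨j, a | ⟨sg, i, v⟩ | u⟩
  · simp only [fam]
    split_ifs with h
    · have := (P j).feas (asg x) h.2 ⟨a.1, h.1⟩
      linarith
    · exact le_rfl
  · simp only [fam]
    split_ifs <;> first | exact le_max_right _ _ | exact le_rfl
  · simp only [fam]
    split_ifs <;> norm_num

theorem arith1 {E B : ℕ} (hE : 16 ≤ E) (hk : 2 * kk E ≤ B) :
    1 ≤ B / E ∧ 9 * (B / E) ≤ B ∧ kk E ≤ B - 8 * (B / E) ∧ 0 < B := by
  have hE0 : 0 < E := by omega
  have h1 : E ≤ kk E := by
    unfold kk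
    have : 1 ≤ 2 * (4 * E + 1) * E := by nlinarith
    nlinarith
  have h2 : B / E ≤ B / 16 := Nat.div_le_div_left hE (by norm_num)
  have h3 : 1 ≤ B / E := by
    rw [Nat.one_le_div_iff hE0]
    omega
  omega

/-- the relaxation with the inequalities in `I` only -/
noncomputable def Relax.restr {n : ℕ} (P : Relax n) (I : Finset (Fin P.size)) : Relax n where
  cell := P.cell
  dim := P.dim
  size := I.card
  A := fun i => P.A (I.equivFin.symm i)
  b := fun i => P.b (I.equivFin.symm i)
  pt := P.pt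
  w := P.w
  w0 := P.w0
  feas := fun x hx _ => P.feas x hx _
  bdd := P.bdd
  sound := P.sound

theorem Relax.restr_refutes {n m : ℕ} (P : Relax n) (I : Finset (Fin P.size))
    (phi : Fin m → Clause n) (de : ℝ) (h : P.RefutesBy I phi de) :
    (P.restr I).Refutes phi de := by
  intro y hy
  apply h y
  intro i hi
  have h2 : ∑ k, P.A (I.equivFin.symm (I.equivFin ⟨i, hi⟩)) k * y k ≤
      P.b (I.equivFin.symm (I.equivFin ⟨i, hi⟩)) := hy (I.equivFin ⟨i, hi⟩)
  rw [Equiv.symm_apply_apply] at h2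
  exact h2

end Pool.Agent.H1.LP

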