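import Pool.Agent.H1.LP.Core2

/-!
# SETH for linear programs: the core statement (helper1)
-/

namespace Pool.Agent.H1.LP

open Finset

/-- the core statement with adaptive choice of the inequalities -/
def S_CORE2 : Prop :=
  ∀ (E g s n B M N0 : ℕ) (P : Fin M → Relax n), 16 ≤ E → 1 ≤ g → 0 < s → 2 * kk E ≤ B →
    B * (4 * E * g) ≤ n → 4 * 2 ^ (4 * E + 1) * B ≤ 2 ^ g → 8 * s ≤ 4 ^ g →
    ((M : ℝ) * (N0 + 2 * (4 * E * B * 2 ^ (4 * E * g * kk E)) + 1) * 2 ^ (4 * E * g * B) + 1) *
      (2 ^ (4 * E + 1)) ^ B < 4 ^ s →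
    (∀ j, (P j).size ≤ N0) →
    ∃ (m : ℕ) (phi : Fin m → Clause n), 1 ≤ m ∧ m ≤ 4 * E * B * 2 ^ (4 * E * g * kk E) ∧
      (∀ i, (phi i).card = 4 * E * g * kk E ∧ ((phi i).image Prod.fst).card = 4 * E * g * kk E) ∧
      (∀ x, (1 - 1 / (E : ℝ)) * (m / 2 ^ (4 * E * g * kk E)) ≤ (viol phi x : ℝ)) ∧
      ∀ (J : Finset (Fin M)) (I : (j : Fin M) → Finset (Fin (P j).size)) (de : ℝ), 0 < de →
        (∀ j ∈ J, ∀ j' ∈ J, j ≠ j' → Disjoint (P j).cell (P j').cell) →
        (∀ x, ∃ j ∈ J, x ∈ (P j).cell) →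
        (∀ j ∈ J, (P j).RefutesBy (I j) phi de) →
        de ≤ 8 * m * eta E g B + 12 * m * vsi E g B * ∑ j ∈ J, (((I j).card : ℝ) + 1)

theorem core (hK : S_KEY) (hB : S_BASE) (hL : S_LOC) (hEn : S_ENC) (hF : S_FORM) (hC : S_LPC)
    (hA : S_ABST) : S_CORE2 := by
  classical
  intro E g s n B M N0 P hE hg hs hkB hBn h1 h2 h3 hsz
  obtain ⟨ht1, h9t, hkd, hB0⟩ := arith1 hE hkB
  obtain ⟨p, hp, hple, T, Y, hT, hsupp, hz⟩ := hB E B (by omega) (by
    show kk E ≤ B
    omega)
  have := hp
  obtain ⟨S, hS⟩ := hL p B (4 * E * B) (B / E) (B - 8 * (B / E)) Y ht1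
  obtain ⟨b, hb⟩ : ∃ b, 4 * E * g = b := ⟨_, rfl⟩
  have hbE : b = 4 * E * g := hb.symm
  simp only [hb] at hBn h3 ⊢
  obtain ⟨asg, dec, cl, hda, hsat, hcard⟩ := hEn n B b hBn
  have hT' : ∀ i, (T i).card = kk E := hT
  have hrow : ∀ i, Y.A i ∈ S.La ∧ S.ga (Y.A i) = Y.be i := by
    intro i
    apply hS
    calc (supp (Y.A i)).card ≤ (T i).card := card_le_card (hsupp i)
      _ = kk E := hT' i
      _ ≤ _ := hkd
  have hQ : (Fintype.card (Fin b → Bool) : ℝ) = 2 ^ b := by
    rw [Fintype.card_fun, Fintype.card_bool, Fintype.card_fin]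
    push_cast
    rfl
  have hpR : (p : ℝ) ≤ 2 ^ (4 * E + 1) := by exact_mod_cast hple
  have hp0 : (0 : ℝ) < p := by exact_mod_cast (Fact.out : p.Prime).pos
  -- the typical table
  obtain ⟨al, k1, k2, k3⟩ := key' hK p B (B - 8 * (B / E)) (Fin b → Bool) S (2 ^ (4 * g)) s g
    (B / E) (B - 9 * (B / E)) (Idx M N0 b T) (fam T P asg cl) hs
    (by
      have : (1 : ℝ) < 2 ^ (4 * g) := one_lt_pow₀ (by norm_num) (by omega)
      exact this)
    (by
      rw [hQ]
      exact pow_le_pow_right₀ (by norm_num) (by rw [hbE]; nlinarith))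
    (by
      have h2' : (8 * s : ℝ) ≤ 4 ^ g := by exact_mod_cast h2
      calc (8 * s * 4 ^ g : ℝ) ≤ 4 ^ g * 4 ^ g := by gcongr
        _ = 2 ^ (4 * g) := by
          rw [← mul_pow]
          norm_num [pow_mul])
    (by
      refine le_trans ?_ h1
      gcongr)
    (by omega)
    (fun i x => fam_nonneg T P asg cl i x)
    (by
      rw [card_idx M N0 b (kk E) T hT', hQ]
      refine lt_of_le_of_lt ?_ h3
      push_cast
      rw [← pow_mul, ← pow_mul]
      have e1 : (p : ℝ) ^ B ≤ 2 ^ ((4 * E + 1) * B) := by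
        rw [pow_mul]
        gcongr
      have e2 : (N0 : ℝ) + (2 * ((4 * E * B : ℝ) * 2 ^ (b * kk E)) + 1) =
          N0 + 2 * (4 * E * B * 2 ^ (b * kk E)) + 1 := by
        ring
      rw [e2]
      gcongr)
  set et : ℝ := 2 * (p : ℝ) ^ B / 2 ^ (g * (B / E + 1)) with het
  set si : ℝ := (p : ℝ) ^ B * (2 ^ (4 * g) / (Fintype.card (Fin b → Bool) : ℝ)) ^
    (B - 9 * (B / E) + 1) with hsi
  have het0 : 0 ≤ et := by positivity
  have hsi0 : 0 ≤ si := by positivity
  -- the formula
  obtain ⟨m, phi, hm, hphi, hviol⟩ := hF p B (4 * E * B) (kk E) b n T Y.A Y.be al dec cl hT' hsupp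
    hsat
  have hvlow : ∀ y, (4 * E - 3) * B ≤ viol phi y := by
    intro y
    rw [hviol y]
    exact hz _
  have hvm : ∀ y, viol phi y ≤ m := by
    intro y
    unfold viol
    refine (card_le_univ _).trans ?_
    rw [Fintype.card_fin]
  have hm1 : 1 ≤ m := by
    have := (hvlow (fun _ => false)).trans (hvm _)
    have h4 : 1 ≤ (4 * E - 3) * B := Nat.mul_pos (by omega) hB0
    omega
  refine ⟨m, phi, hm1, hm, ?_, ?_, ?_⟩
  · intro a
    obtain ⟨i, v, -, hav, -⟩ := hphi a
    rw [hav]
    have := hcard (T i) v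
    rw [hT' i] at this
    rw [mul_comm (kk E)] at this
    exact this
  · intro y
    have h5 : ((m : ℝ) / 2 ^ (b * kk E)) ≤ 4 * E * B := by
      rw [div_le_iff₀ (by positivity)]
      exact_mod_cast hm
    have hE1 : (0 : ℝ) < E := by
      have : 0 < E := by omega
      exact_mod_cast this
    have hE3 : (16 : ℝ) ≤ E := by exact_mod_cast hE
    have h6 : (0 : ℝ) ≤ 1 - 1 / (E : ℝ) := by
      rw [sub_nonneg, div_le_one hE1]
      linarith
    have h7 : (((4 * E - 3) * B : ℕ) : ℝ) ≤ viol phi y := by exact_mod_cast hvlow y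
    have h8 : (((4 * E - 3) * B : ℕ) : ℝ) = (4 * E - 3) * B := by
      rw [Nat.cast_mul, Nat.cast_sub (by omega)]
      push_cast
      ring
    rw [h8] at h7
    refine le_trans ?_ h7
    calc (1 - 1 / (E : ℝ)) * (m / 2 ^ (b * kk E)) ≤ (1 - 1 / (E : ℝ)) * (4 * E * B) := by gcongr
      _ = (4 * E - 4) * B := by
        field_simp
      _ ≤ (4 * E - 3) * B := by
        have : (0 : ℝ) ≤ B := by positivity
        nlinarith
  · intro J I de hde hdisj hcov href
    -- comparison of the error terms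
    have hpB : (p : ℝ) ^ B ≤ 2 ^ ((4 * E + 1) * B) := by
      rw [pow_mul]
      gcongr
    have het' : et ≤ eta E g B := by
      rw [het]
      unfold eta
      gcongr
    have hsi' : si ≤ vsi E g B := by
      rw [hsi, hQ]
      unfold vsi
      rw [hb]
      gcongr
    have hW : (0 : ℝ) ≤ ∑ j ∈ J, (((I j).card : ℝ) + 1) :=
      sum_nonneg fun j _ => add_nonneg (Nat.cast_nonneg _) zero_le_one
    suffices hsuff : de ≤ 8 * m * et + 12 * m * si * ∑ j ∈ J, (((I j).card : ℝ) + 1) by
      have e5 : 8 * (m : ℝ) * et ≤ 8 * m * eta E g B :=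
        mul_le_mul_of_nonneg_left het' (by positivity)
      have e6 : 12 * (m : ℝ) * si ≤ 12 * m * vsi E g B :=
        mul_le_mul_of_nonneg_left hsi' (by positivity)
      have e7 := mul_le_mul_of_nonneg_right e6 hW
      linarith
    by_cases hett : et ≤ 1 / 8
    swap
    · push Not at hett
      obtain ⟨j, hj, hxj⟩ := hcov (fun _ => false)
      have h4 := href j hj ((P j).pt (fun _ => false)) (fun i _ => (P j).feas _ hxj i)
      have h5 : ∑ i, (P j).loss (phi i) ((P j).pt (fun _ => false)) ≤ m := by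
        calc ∑ i, (P j).loss (phi i) ((P j).pt (fun _ => false)) ≤ ∑ _i : Fin m, (1 : ℝ) :=
              sum_le_sum fun i _ => (le_abs_self _).trans ((P j).bdd _ hxj _)
          _ = m := by simp
      have h6 : (m : ℝ) ≤ 8 * m * et := by
        have : (0 : ℝ) ≤ m := by positivity
        nlinarith
      have h7 : 0 ≤ 12 * m * si * ∑ j ∈ J, (((I j).card : ℝ) + 1) :=
        mul_nonneg (by positivity) hW
      linarith
    -- certificates
    have hcert : ∀ j, ∃ (lam : Fin (I j).card → ℝ) (lam0 : ℝ), j ∈ J → (0 ≤ lam0 ∧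
        (∀ i, 0 ≤ lam i) ∧ ∀ x ∈ (P j).cell, ∑ i, (P j).loss (phi i) ((P j).pt x) - de =
          lam0 + ∑ i, lam i * ((P j).b ((I j).equivFin.symm i) -
            ∑ k, (P j).A ((I j).equivFin.symm i) k * (P j).pt x k)) := by
      intro j
      by_cases hj : j ∈ J
      · by_cases hne : (P j).cell.Nonempty
        · obtain ⟨lam, lam0, c1, c2, c3⟩ := hC n m ((P j).restr (I j)) phi de hne
            ((P j).restr_refutes (I j) phi de (href j hj))
          exact ⟨lam, lam0, fun _ => ⟨c1, c2, c3⟩⟩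
        · refine ⟨fun _ => 0, 0, fun _ => ⟨le_rfl, fun _ => le_rfl, ?_⟩⟩
          intro x hx
          exact absurd ⟨x, hx⟩ hne
      · exact ⟨fun _ => 0, 0, fun h => absurd h hj⟩
    choose lam lam0 hlam using hcert
    have hcX : Fintype.card (Fin B → Fin b → Bool) = Fintype.card (Fin b → Bool) ^ B := by
      rw [Fintype.card_fun, Fintype.card_fin]
    have hcXR : (Fintype.card (Fin B → Fin b → Bool) : ℝ) =
        (Fintype.card (Fin b → Bool) : ℝ) ^ B := by
      rw [hcX]
      push_cast
      rfl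
    -- sums over cells
    have hcellsum : ∀ (j : Fin M) (F : (Fin B → Fin b → Bool) → ℝ),
        ∑ x ∈ univ.filter (fun x => asg x ∈ (P j).cell), F x =
          ∑ x, if asg x ∈ (P j).cell then F x else 0 := by
      intro j F
      rw [sum_filter]
    refine hA (Fin B → Fin b → Bool) (PD S al) et si de m (Fin M) J
      (fun j => univ.filter (fun x => asg x ∈ (P j).cell)) (fun j => (I j).card)
      (fun j i x => (P j).b ((I j).equivFin.symm i) -
        ∑ k, (P j).A ((I j).equivFin.symm i) k * (P j).pt (asg x) k) lam lam0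
      (fun j a x => (P j).loss (phi a) ((P j).pt (asg x))) het0 hsi0 hde ?_ ?_ ?_ ?_ ?_ ?_ ?_ ?_ ?_
      ?_ ?_ ?_
    · intro j hj j' hj' hne
      have := hdisj j hj j' hj' hne
      rw [Finset.disjoint_left]
      intro x hx hx'
      rw [mem_filter] at hx hx'
      exact Finset.disjoint_left.mp this hx.2 hx'.2
    · intro x
      obtain ⟨j, hj, hx⟩ := hcov (asg x)
      exact ⟨j, hj, by simpa using hx⟩
    · intro j hj i x hx
      rw [mem_filter] at hx
      have := (P j).feas (asg x) hx.2 ((I j).equivFin.symm i)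
      linarith
    · intro j hj i
      exact (hlam j hj).2.1 i
    · intro j hj
      exact (hlam j hj).1
    · intro j hj a x hx
      rw [mem_filter] at hx
      exact (P j).bdd (asg x) hx.2 (phi a)
    · intro j hj x hx
      rw [mem_filter] at hx
      exact (hlam j hj).2.2 (asg x) hx.2
    · -- slack functions
      intro j hj i0 c hc hc0
      obtain ⟨i, hii⟩ : ∃ i, i = ((I j).equivFin.symm i0 : Fin (P j).size) := ⟨_, rfl⟩
      simp only [← hii] at hc ⊢
      have hi : i.1 < N0 := lt_of_lt_of_le i.2 (hsz j)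
      have hfam : ∀ x, fam (N0 := N0) T P asg cl (j, Sum.inl ⟨i.1, hi⟩) x =
          if asg x ∈ (P j).cell then
            (P j).b i - ∑ k, (P j).A i k * (P j).pt (asg x) k else 0 := by
        intro x
        simp only [fam]
        by_cases hx : asg x ∈ (P j).cell
        · rw [dif_pos ⟨i.2, hx⟩, if_pos hx]
        · rw [dif_neg (fun h => hx h.2), if_neg hx]
      have hle : ∀ x, fam (N0 := N0) T P asg cl (j, Sum.inl ⟨i.1, hi⟩) x ≤ c := by
        intro x
        rw [hfam x]
        split_ifs with hx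
        · exact hc x (by simpa using hx)
        · exact hc0
      have h4 := k1 (j, Sum.inl ⟨i.1, hi⟩) c hle
      rw [hcellsum, hcellsum]
      have e1 : (∑ x, if asg x ∈ (P j).cell then
          (P j).b i - ∑ k, (P j).A i k * (P j).pt (asg x) k else 0) =
          ∑ x, fam (N0 := N0) T P asg cl (j, Sum.inl ⟨i.1, hi⟩) x :=
        sum_congr rfl fun x _ => (hfam x).symm
      have e2 : (∑ x, if asg x ∈ (P j).cell then
          PD S al x * ((P j).b i - ∑ k, (P j).A i k * (P j).pt (asg x) k) else 0) =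
          ∑ x, PD S al x * fam (N0 := N0) T P asg cl (j, Sum.inl ⟨i.1, hi⟩) x := by
        refine sum_congr rfl fun x _ => ?_
        rw [hfam x]
        split_ifs <;> simp
      rw [e1, e2, hcXR]
      exact h4
    · -- cells
      intro j hj
      have hfam : ∀ x, fam (N0 := N0) T P asg cl (j, Sum.inr (Sum.inr ())) x =
          if asg x ∈ (P j).cell then 1 else 0 := fun x => rfl
      have h4 := k1 (j, Sum.inr (Sum.inr ())) 1 (fun x => by
        rw [hfam]
        split_ifs <;> norm_num)
      have e1 : (((univ.filter (fun x => asg x ∈ (P j).cell)).card : ℕ) : ℝ) =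
          ∑ x, fam (N0 := N0) T P asg cl (j, Sum.inr (Sum.inr ())) x := by
        simp only [hfam]
        rw [Finset.card_filter]
        push_cast
        rfl
      have e2 : ∑ x ∈ univ.filter (fun x => asg x ∈ (P j).cell), PD S al x =
          ∑ x, PD S al x * fam (N0 := N0) T P asg cl (j, Sum.inr (Sum.inr ())) x := by
        rw [hcellsum]
        refine sum_congr rfl fun x _ => ?_
        rw [hfam x]
        split_ifs <;> simp
      rw [e1, e2, hcXR]
      rw [mul_one] at h4
      exact h4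
    · -- losses
      intro j hj a
      obtain ⟨i, v, hv, hav, hne⟩ := hphi a
      have hext : ext (T i) (fun q => v q.1) = v := by
        funext q
        unfold ext
        split_ifs with h
        · rfl
        · exact (hv q h).symm
      have hV : Viol S (T i) (val al v) :=
        ⟨Y.A i, (hrow i).1, hsupp i, by rw [(hrow i).2]; exact hne⟩
      have hf1 : ∀ x, fam (N0 := N0) T P asg cl (j, Sum.inr (Sum.inl (true, ⟨i, fun q => v q.1⟩))) x =
          if asg x ∈ (P j).cell then max ((P j).loss (phi a) ((P j).pt (asg x))) 0 else 0 := by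
        intro x
        simp only [fam, hext, ← hav, if_true, one_mul]
      have hf2 : ∀ x, fam (N0 := N0) T P asg cl (j, Sum.inr (Sum.inl (false, ⟨i, fun q => v q.1⟩))) x =
          if asg x ∈ (P j).cell then max (-(P j).loss (phi a) ((P j).pt (asg x))) 0 else 0 := by
        intro x
        simp only [fam, hext, ← hav]
        simp
      have hb1 : ∀ x, asg x ∈ (P j).cell → |(P j).loss (phi a) ((P j).pt (asg x))| ≤ 1 :=
        fun x hx => (P j).bdd (asg x) hx (phi a)
      have h4 := k2 (j, Sum.inr (Sum.inl (true, ⟨i, fun q => v q.1⟩))) (T i) v 1 (fun x => by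
          rw [hf1]
          split_ifs with hx
          · exact max_le ((le_abs_self _).trans (hb1 x hx)) zero_le_one
          · exact zero_le_one) (fun x hx => by
          rw [hf1] at hx
          split_ifs at hx with hx'
          · by_contra hA'
            have hs' : (phi a).Sat (asg x) := by
              rw [hav, hsat, hda]
              exact hA'
            have := (P j).sound (asg x) hx' (phi a) hs'
            exact hx (max_eq_right this)
          · exact absurd rfl hx) hV
      have h5 := k1 (j, Sum.inr (Sum.inl (false, ⟨i, fun q => v q.1⟩))) 1 (fun x => by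
          rw [hf2]
          split_ifs with hx
          · exact max_le ((neg_le_abs _).trans (hb1 x hx)) zero_le_one
          · exact zero_le_one)
      rw [mul_one] at h4 h5
      have h4' := (le_abs_self _).trans h4
      have e1 : ∑ x ∈ univ.filter (fun x => asg x ∈ (P j).cell),
          |(P j).loss (phi a) ((P j).pt (asg x))| =
          (∑ x, fam (N0 := N0) T P asg cl (j, Sum.inr (Sum.inl (true, ⟨i, fun q => v q.1⟩))) x) +
          ∑ x, fam (N0 := N0) T P asg cl (j, Sum.inr (Sum.inl (false, ⟨i, fun q => v q.1⟩))) x := by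
        rw [hcellsum, ← sum_add_distrib]
        refine sum_congr rfl fun x _ => ?_
        rw [hf1, hf2]
        split_ifs
        · rcases le_total 0 ((P j).loss (phi a) ((P j).pt (asg x))) with h | h
          · rw [abs_of_nonneg h, max_eq_left h, max_eq_right (by linarith), add_zero]
          · rw [abs_of_nonpos h, max_eq_right h, max_eq_left (by linarith), zero_add]
        · simp
      have e2 : ∑ x ∈ univ.filter (fun x => asg x ∈ (P j).cell),
          PD S al x * (P j).loss (phi a) ((P j).pt (asg x)) =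
          (∑ x, PD S al x *
            fam (N0 := N0) T P asg cl (j, Sum.inr (Sum.inl (true, ⟨i, fun q => v q.1⟩))) x) -
          ∑ x, PD S al x *
            fam (N0 := N0) T P asg cl (j, Sum.inr (Sum.inl (false, ⟨i, fun q => v q.1⟩))) x := by
        rw [hcellsum, ← sum_sub_distrib]
        refine sum_congr rfl fun x _ => ?_
        rw [hf1, hf2]
        split_ifs
        · rcases le_total 0 ((P j).loss (phi a) ((P j).pt (asg x))) with h | h
          · rw [max_eq_left h, max_eq_right (by linarith : -((P j).loss (phi a) ((P j).pt (asg x))) ≤ 0)]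
            ring
          · rw [max_eq_right h, max_eq_left (by linarith : 0 ≤ -((P j).loss (phi a) ((P j).pt (asg x))))]
            ring
        · simp
      rw [e1, e2, hcXR]
      linarith
    · rw [hcXR]
      have hN : (0 : ℝ) ≤ (Fintype.card (Fin b → Bool) : ℝ) ^ B := by positivity
      refine le_trans ?_ k3
      nlinarith
    · exact Fintype.card_pos

theorem fin (hc : S_CORE2) (hp : S_PAR) : Statement2 := by
  intro c ε hε
  obtain ⟨E, K, γ, hE, hEε, hγ, n0, hn⟩ := hp (c + 1) ε hε
  refine ⟨K, γ, hγ, max n0 2, fun n hn0 M P hM hsz => ?_⟩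
  have hn2 : 2 ≤ n := le_of_max_le_right hn0
  obtain ⟨g, s, B, hg, hs, hkB, hBn, h1, h2, h3, h4, h5, h6⟩ := hn n (le_of_max_le_left hn0)
  obtain ⟨m, phi, hm1, hm2, hw, hv, hJ⟩ := hc E g s n B M (2 ^ (n ^ c)) P hE hg hs hkB hBn h1 h2
    (by
      refine lt_of_le_of_lt ?_ h3
      have hM' : (M : ℝ) ≤ 2 ^ (n ^ c) := by exact_mod_cast hM
      have hp1 : n ^ c + n ^ c ≤ n ^ (c + 1) := by
        rw [pow_succ]
        nlinarith [Nat.pow_pos (n := c) (by omega : 0 < n)]
      have hp2 : n ^ c ≤ n ^ (c + 1) := by omega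
      obtain ⟨Z, hZ⟩ : ∃ Z : ℝ, Z = 2 * (4 * E * B * 2 ^ (4 * E * g * kk E)) + 1 := ⟨_, rfl⟩
      have hZ0 : 0 ≤ Z := by
        rw [hZ]
        positivity
      have key : (M : ℝ) * (((2 ^ (n ^ c) : ℕ) : ℝ) +
          2 * (4 * E * B * 2 ^ (4 * E * g * kk E)) + 1) ≤
          2 ^ (n ^ (c + 1)) * (2 ^ n + 2 * (4 * E * B * 2 ^ (4 * E * g * kk E)) + 1) := by
        rw [add_assoc, add_assoc, ← hZ]
        push_cast
        have a1 : (M : ℝ) * 2 ^ (n ^ c) ≤ 2 ^ (n ^ (c + 1)) * 2 ^ n := by
          calc (M : ℝ) * 2 ^ (n ^ c) ≤ 2 ^ (n ^ c) * 2 ^ (n ^ c) := by gcongr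
            _ = 2 ^ (n ^ c + n ^ c) := by rw [pow_add]
            _ ≤ 2 ^ (n ^ (c + 1)) := pow_le_pow_right₀ (by norm_num) hp1
            _ ≤ 2 ^ (n ^ (c + 1)) * 2 ^ n :=
              le_mul_of_one_le_right (by positivity) (one_le_pow₀ (by norm_num))
        have a2 : (M : ℝ) * Z ≤ 2 ^ (n ^ (c + 1)) * Z := by
          apply mul_le_mul_of_nonneg_right _ hZ0
          exact hM'.trans (pow_le_pow_right₀ (by norm_num) hp2)
        linarith
      gcongr) hsz
  refine ⟨4 * E * g * kk E, m, phi, hm1, hm2.trans h4, h5, hw, fun x => le_trans ?_ (hv x),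
    fun J I hd hcov href => ?_⟩
  · gcongr
  · exact h6 m _ hm1 (hm2.trans h4) (hJ J I _ (by positivity) hd hcov href)

end Pool.Agent.H1.LP
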