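import Mathlib

/-!
# SETH for linear programs: definitions (helper1)

Blocks `Fin B`, alphabet `Q`, tables `al : Fin B → Q → ZMod p`.  A point `x : Fin B → Q` is mapped
to the vector `fun j => al j (x j)` over `ZMod p`.
-/

namespace Pool.Agent.H1.LP

open Finset

/-- support of a vector over `ZMod p`. -/
def supp {p B : ℕ} (l : Fin B → ZMod p) : Finset (Fin B) := univ.filter (fun j => l j ≠ 0)

/-- linear combination `c A` of the rows of `A`. -/
def comb {p R B : ℕ} (A : Fin R → Fin B → ZMod p) (c : Fin R → ZMod p) : Fin B → ZMod p :=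
  fun j => ∑ i, c i * A i j

/-- inner product over `ZMod p`. -/
def ip {p B : ℕ} (l z : Fin B → ZMod p) : ZMod p := ∑ j, l j * z j

/-- the vector of table values of `x`. -/
def val {p B : ℕ} {Q : Type} (al : Fin B → Q → ZMod p) (x : Fin B → Q) : Fin B → ZMod p :=
  fun j => al j (x j)

/-- `x` agrees with `y` on `L`. -/
def Agree {B : ℕ} {Q : Type} (L : Finset (Fin B)) (x y : Fin B → Q) : Prop := ∀ j ∈ L, x j = y j

instance {B : ℕ} {Q : Type} [DecidableEq Q] (L : Finset (Fin B)) (x y : Fin B → Q) :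
    Decidable (Agree L x y) := by unfold Agree; infer_instance

/-- exponential sum of `V` against the character of `l`. -/
noncomputable def FS {p B : ℕ} [NeZero p] {Q : Type} [Fintype Q] [DecidableEq Q]
    (V : (Fin B → Q) → ℝ) (l : Fin B → ZMod p) (al : Fin B → Q → ZMod p) : ℂ :=
  ∑ x, (V x : ℂ) * ZMod.stdAddChar (ip l (val al x))

/-- `V ≥ 0` and `V` is spread over the blocks outside `I`: fixing the blocks in `L` leaves at most
a `D ^ (-|L|)` fraction of the mass. -/
def Dense {B : ℕ} {Q : Type} [Fintype Q] [DecidableEq Q] (D : ℝ) (I : Finset (Fin B))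
    (V : (Fin B → Q) → ℝ) : Prop :=
  (∀ x, 0 ≤ V x) ∧ ∀ L : Finset (Fin B), Disjoint L I → ∀ y : Fin B → Q,
    (∑ x with Agree L x y, V x) * D ^ L.card ≤ ∑ x, V x

/-- the table `al` is typical for `(I, V)`: all characters outside `I` have small sums. -/
def Typ {p B : ℕ} [NeZero p] {Q : Type} [Fintype Q] [DecidableEq Q] (g : ℕ) (I : Finset (Fin B))
    (V : (Fin B → Q) → ℝ) (al : Fin B → Q → ZMod p) : Prop :=
  ∀ l : Fin B → ZMod p, l ≠ 0 → (∀ j ∈ I, l j = 0) →
    ‖FS V l al‖ * 2 ^ (g * (supp l).card) ≤ 2 * ∑ x, V x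

/-- A set of linear equations `l · z = ga l` of width at most `d`, closed under sums of width at
most `d`. -/
structure Loc (p B d : ℕ) where
  /-- the linear forms -/
  La : Finset (Fin B → ZMod p)
  /-- the right hand sides -/
  ga : (Fin B → ZMod p) → ZMod p
  small : ∀ l ∈ La, (supp l).card ≤ d
  zero_mem : (0 : Fin B → ZMod p) ∈ La
  neg_mem : ∀ l ∈ La, -l ∈ La
  add_mem : ∀ l ∈ La, ∀ l' ∈ La, (supp (l + l')).card ≤ d → l + l' ∈ La
  add_ga : ∀ l ∈ La, ∀ l' ∈ La, (supp (l + l')).card ≤ d → ga (l + l') = ga l + ga l'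

/-- the pseudo-density, real part. -/
noncomputable def PD {p B d : ℕ} [NeZero p] {Q : Type} (S : Loc p B d)
    (al : Fin B → Q → ZMod p) (x : Fin B → Q) : ℝ :=
  ∑ l ∈ S.La, (ZMod.stdAddChar (ip l (val al x) - S.ga l)).re

/-- the local system `S` is violated by `z` on a form supported in `I`. -/
def Viol {p B d : ℕ} (S : Loc p B d) (I : Finset (Fin B)) (z : Fin B → ZMod p) : Prop :=
  ∃ l ∈ S.La, supp l ⊆ I ∧ ip l z ≠ S.ga l

/-- a linear system in which medium combinations are wide and short dependencies are consistent. -/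
structure Sys (p B R t d : ℕ) where
  /-- coefficient matrix -/
  A : Fin R → Fin B → ZMod p
  /-- right hand side -/
  be : Fin R → ZMod p
  wide : ∀ c : Fin R → ZMod p, t < (supp c).card → (supp c).card ≤ 2 * t →
    d < (supp (comb A c)).card
  cons : ∀ c : Fin R → ZMod p, (supp c).card ≤ 2 * t → comb A c = 0 → ∑ i, c i * be i = 0

end Pool.Agent.H1.LP
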