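import Pool.Agent.H7.LP.Targets

/-!
# Row EQV: equal codes up to translation
-/

set_option autoImplicit false

open Set Filter Topology

namespace Pool.Agent.H1.LP

open Pool.Agent.H7.LP

/-- EQV -/
theorem pf_EQV : T_EQV := by
  intro G X _ _ _ M _ Y g x y h
  have h0 := congrFun h 0
  have h1 : (1 : G) ∈ tr g (Y.C x) 0 := by
    rw [h0, Y.zero]
    exact M.one_mem
  have h2 : (1 : G) * g ∈ Y.C x 0 := h1
  rw [Y.zero, one_mul] at h2
  refine ⟨⟨g, h2⟩, rfl, Y.inj _ _ ?_⟩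
  rw [Y.smul]
  exact h

end Pool.Agent.H1.LP
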