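import Pool.Agent.H62.LP.T1

/-!
# Row HIT of the board rwl (helper62, MP_521601_pr)

Walks which visit a set.
-/

set_option autoImplicit false

open MeasureTheory ProbabilityTheory Filter Topology
open scoped ENNReal NNReal

namespace Pool.Agent.H1.LP

open Pool.Agent.H62.LP

variable {V : Type}

theorem wt_split (q : V → V → ℝ≥0∞) (a a' y : V) (t₁ t₂ : List V) :
    wt q a ((t₁ ++ y :: t₂) ++ [a']) = wt q a (t₁ ++ [y]) * wt q y (t₂ ++ [a']) := by
  have e : (t₁ ++ y :: t₂) ++ [a'] = (t₁ ++ [y]) ++ (t₂ ++ [a']) := by simp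
  rw [e, wt_append, en_append]
  simp

/-- the first visit to `S` -/
theorem first_split (S : Set V) (t : List V) (h : ∃ y ∈ t, y ∈ S) :
    ∃ (t₁ : List V) (y : V) (t₂ : List V), ((∀ u ∈ t₁, u ∉ S) ∧ y ∈ S) ∧ t₁ ++ y :: t₂ = t := by
  induction t with
  | nil =>
    obtain ⟨y, hy, _⟩ := h
    exact absurd hy (by simp)
  | cons b t ih =>
    by_cases hb : b ∈ S
    · exact ⟨[], b, t, ⟨by simp, hb⟩, rfl⟩
    · have h' : ∃ y ∈ t, y ∈ S := by
        obtain ⟨y, hy, hyS⟩ := h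
        rcases List.mem_cons.mp hy with h1 | h1
        · rw [h1] at hyS
          exact absurd hyS hb
        · exact ⟨y, h1, hyS⟩
      obtain ⟨t₁, y, t₂, ⟨h1, h2⟩, h3⟩ := ih h'
      refine ⟨b :: t₁, y, t₂, ⟨?_, h2⟩, by rw [List.cons_append, h3]⟩
      intro u hu
      rcases List.mem_cons.mp hu with h4 | h4
      · rw [h4]; exact hb
      · exact h1 u h4

theorem pf_HIT (hF : T_FHT) : T_HIT := by
  classical
  intro V q hq S h a a' hh
  -- pass to subtypes
  have h1 : ∑' t : List V, (if ∃ y ∈ t, y ∈ S then wt q a (t ++ [a']) else 0) =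
      ∑' t : {t : List V // ∃ y ∈ t, y ∈ S}, wt q a (t.1 ++ [a']) := by
    have h2 := tsum_subtype {t : List V | ∃ y ∈ t, y ∈ S} (fun t => wt q a (t ++ [a']))
    refine Eq.trans ?_ h2.symm
    refine tsum_congr fun t => ?_
    by_cases ht : ∃ y ∈ t, y ∈ S
    · rw [if_pos ht, Set.indicator_of_mem (by exact ht)]
    · rw [if_neg ht, Set.indicator_of_notMem (by exact ht)]
  let φ : {p : List V × V × List V // (∀ u ∈ p.1, u ∉ S) ∧ p.2.1 ∈ S} →
      {t : List V // ∃ y ∈ t, y ∈ S} := fun p =>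
    ⟨p.1.1 ++ p.1.2.1 :: p.1.2.2, p.1.2.1, by simp, p.2.2⟩
  have hφ : Function.Surjective φ := by
    rintro ⟨t, ht⟩
    obtain ⟨t₁, y, t₂, h3, h4⟩ := first_split S t ht
    exact ⟨⟨(t₁, y, t₂), h3⟩, Subtype.ext h4⟩
  rw [h1]
  calc ∑' t : {t : List V // ∃ y ∈ t, y ∈ S}, wt q a (t.1 ++ [a'])
      ≤ ∑' p, wt q a ((φ p).1 ++ [a']) :=
        ENNReal.tsum_le_tsum_comp_of_surjective hφ (fun t => wt q a (t.1 ++ [a']))
    _ = ∑' p : {p : List V × V × List V // (∀ u ∈ p.1, u ∉ S) ∧ p.2.1 ∈ S},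
          wt q a (p.1.1 ++ [p.1.2.1]) * wt q p.1.2.1 (p.1.2.2 ++ [a']) :=
        tsum_congr fun p => wt_split q a a' _ _ _
    _ = ∑' p : List V × V × List V, (if (∀ u ∈ p.1, u ∉ S) ∧ p.2.1 ∈ S then
          wt q a (p.1 ++ [p.2.1]) * wt q p.2.1 (p.2.2 ++ [a']) else 0) := by
        have h2 := tsum_subtype {p : List V × V × List V | (∀ u ∈ p.1, u ∉ S) ∧ p.2.1 ∈ S}
          (fun p => wt q a (p.1 ++ [p.2.1]) * wt q p.2.1 (p.2.2 ++ [a']))
        refine h2.trans ?_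
        refine tsum_congr fun p => ?_
        by_cases hp : (∀ u ∈ p.1, u ∉ S) ∧ p.2.1 ∈ S
        · rw [if_pos hp, Set.indicator_of_mem (by exact hp)]
        · rw [if_neg hp, Set.indicator_of_notMem (by exact hp)]
    _ = ∑' (t₁ : List V) (y : V) (t₂ : List V), (if (∀ u ∈ t₁, u ∉ S) ∧ y ∈ S then
          wt q a (t₁ ++ [y]) * wt q y (t₂ ++ [a']) else 0) := by
        rw [ENNReal.tsum_prod']
        refine tsum_congr fun t₁ => ?_
        rw [ENNReal.tsum_prod']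
    _ ≤ ∑' (t₁ : List V) (y : V), (if (∀ u ∈ t₁, u ∉ S) ∧ y ∈ S then
          wt q a (t₁ ++ [y]) else 0) * h := by
        refine ENNReal.tsum_le_tsum fun t₁ => ENNReal.tsum_le_tsum fun y => ?_
        by_cases hp : (∀ u ∈ t₁, u ∉ S) ∧ y ∈ S
        · simp only [if_pos hp]
          rw [ENNReal.tsum_mul_left]
          gcongr
          exact hh y hp.2
        · simp only [if_neg hp, tsum_zero, zero_mul, le_refl]
    _ = (∑' (t₁ : List V) (y : V), (if (∀ u ∈ t₁, u ∉ S) ∧ y ∈ S then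
          wt q a (t₁ ++ [y]) else 0)) * h := by
        rw [← ENNReal.tsum_mul_right]
        refine tsum_congr fun t₁ => ?_
        rw [ENNReal.tsum_mul_right]
    _ ≤ 1 * h := by gcongr; exact hF V q hq S a
    _ = h := one_mul h

end Pool.Agent.H1.LP
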