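import Pool.Agent.H1.LP.HIT

/-!
# Row HT2 of the board rwl (helper62, MP_521601_pr)

Walks which visit a set, with a mark outside of the set.
-/

set_option autoImplicit false

open MeasureTheory ProbabilityTheory Filter Topology
open scoped ENNReal NNReal

namespace Pool.Agent.H1.LP

open Pool.Agent.H62.LP

variable {V : Type}

theorem vis_eq (f : V → ℝ≥0∞) (t : List V) : vis f t = ∑ i : Fin t.length, f (t.get i) := by
  unfold vis
  rw [← List.sum_ofFn]
  congr 1
  rw [List.ofFn_congr (m := t.length) rfl]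
  apply List.ext_getElem
  · simp
  · intro n h1 h2
    simp

/-- sums over walks with a mark are at most sums over pairs of walks -/
theorem mark_le (G : List V → V → List V → ℝ≥0∞) :
    ∑' t : List V, ∑ i : Fin t.length, G (t.take i) (t.get i) (t.drop (i + 1)) ≤
      ∑' (t₁ : List V) (b : V) (t₂ : List V), G t₁ b t₂ := by
  let φ : (Σ t : List V, Fin t.length) → List V × V × List V := fun x =>
    (x.1.take x.2, x.1.get x.2, x.1.drop (x.2 + 1))
  have hφ : Function.Injective φ := by
    rintro ⟨t, i⟩ ⟨t', i'⟩ h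
    simp only [φ, Prod.mk.injEq] at h
    obtain ⟨h1, h2, h3⟩ := h
    have e : ∀ (s : List V) (j : Fin s.length),
        s.take j ++ s.get j :: s.drop (j + 1) = s := by
      intro s j
      rw [List.get_eq_getElem, List.cons_getElem_drop_succ, List.take_append_drop]
    have h4 : t = t' := by rw [← e t i, ← e t' i', h1, h2, h3]
    subst h4
    have h5 : (t.take i).length = (t.take i').length := by rw [h1]
    rw [List.length_take, List.length_take] at h5
    have h6 : (i : ℕ) = i' := by
      have := i.2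
      have := i'.2
      omega
    rw [Fin.ext h6]
  calc ∑' t : List V, ∑ i : Fin t.length, G (t.take i) (t.get i) (t.drop (i + 1))
      = ∑' x : (Σ t : List V, Fin t.length), (fun p : List V × V × List V => G p.1 p.2.1 p.2.2)
          (φ x) := by
        rw [ENNReal.tsum_sigma']
        refine tsum_congr fun t => ?_
        rw [tsum_fintype]
    _ ≤ ∑' p : List V × V × List V, G p.1 p.2.1 p.2.2 :=
        ENNReal.tsum_comp_le_tsum_of_injective hφ _
    _ = _ := by
        rw [ENNReal.tsum_prod']
        refine tsum_congr fun t₁ => ?_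
        rw [ENNReal.tsum_prod']

open Classical in
theorem pf_HT2 (hH : T_HIT) : T_HT2 := by
  intro V q hq S h f a a' hf hh
  set G : List V → V → List V → ℝ≥0∞ := fun t₁ b t₂ =>
    f b * ((if ∃ y ∈ t₁, y ∈ S then wt q a (t₁ ++ [b]) else 0) * wt q b (t₂ ++ [a'])) +
    f b * (wt q a (t₁ ++ [b]) * (if ∃ y ∈ t₂, y ∈ S then wt q b (t₂ ++ [a']) else 0)) with hG
  have hsplit : ∀ (t : List V) (i : Fin t.length),
      t.take i ++ t.get i :: t.drop (i + 1) = t := by
    intro s j
    rw [List.get_eq_getElem, List.cons_getElem_drop_succ, List.take_append_drop]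
  have h1 : ∀ t : List V, (if ∃ y ∈ t, y ∈ S then wt q a (t ++ [a']) * vis f t else 0) ≤
      ∑ i : Fin t.length, G (t.take i) (t.get i) (t.drop (i + 1)) := by
    intro t
    by_cases ht : ∃ y ∈ t, y ∈ S
    · rw [if_pos ht, vis_eq, Finset.mul_sum]
      refine Finset.sum_le_sum fun i _ => ?_
      have hw : wt q a (t ++ [a']) = wt q a (t.take i ++ [t.get i]) *
          wt q (t.get i) (t.drop (i + 1) ++ [a']) := by
        rw [← wt_split, hsplit]
      rw [hw]
      obtain ⟨y, hy, hyS⟩ := ht
      rw [← hsplit t i, List.mem_append, List.mem_cons] at hy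
      rcases hy with hy | hy | hy
      · have h2 : ∃ y ∈ t.take i, y ∈ S := ⟨y, hy, hyS⟩
        simp only [hG, if_pos h2]
        refine le_trans (le_of_eq ?_) le_self_add
        ring
      · rw [hf _ (hy ▸ hyS), mul_zero]
        exact bot_le
      · have h2 : ∃ y ∈ t.drop (i + 1), y ∈ S := ⟨y, hy, hyS⟩
        simp only [hG, if_pos h2]
        refine le_trans (le_of_eq ?_) le_add_self
        ring
    · rw [if_neg ht]
      exact bot_le
  refine (ENNReal.tsum_le_tsum h1).trans ((mark_le G).trans ?_)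
  rw [ENNReal.tsum_comm]
  refine ENNReal.tsum_le_tsum fun b => ?_
  -- the two parts
  have h2 : ∑' (t₁ : List V) (t₂ : List V), G t₁ b t₂ =
      f b * ((∑' t₁ : List V, (if ∃ y ∈ t₁, y ∈ S then wt q a (t₁ ++ [b]) else 0)) * Hk q b a') +
      f b * (Hk q a b * ∑' t₂ : List V, (if ∃ y ∈ t₂, y ∈ S then wt q b (t₂ ++ [a']) else 0)) := by
    simp only [hG]
    have e1 : ∀ t₁ : List V, ∑' t₂ : List V,
        (f b * ((if ∃ y ∈ t₁, y ∈ S then wt q a (t₁ ++ [b]) else 0) * wt q b (t₂ ++ [a'])) +
        f b * (wt q a (t₁ ++ [b]) * (if ∃ y ∈ t₂, y ∈ S then wt q b (t₂ ++ [a']) else 0))) =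
        f b * ((if ∃ y ∈ t₁, y ∈ S then wt q a (t₁ ++ [b]) else 0) * Hk q b a') +
        f b * (wt q a (t₁ ++ [b]) *
          ∑' t₂ : List V, (if ∃ y ∈ t₂, y ∈ S then wt q b (t₂ ++ [a']) else 0)) := by
      intro t₁
      rw [ENNReal.tsum_add, ENNReal.tsum_mul_left, ENNReal.tsum_mul_left, ENNReal.tsum_mul_left,
        ENNReal.tsum_mul_left]
      rfl
    rw [tsum_congr e1, ENNReal.tsum_add, ENNReal.tsum_mul_left, ENNReal.tsum_mul_left,
      ENNReal.tsum_mul_right, ENNReal.tsum_mul_right]
    rfl
  rw [h2, mul_add]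
  by_cases hb : f b = 0
  · rw [hb]
    simp
  · have h3 := hH V q hq S h a b fun y hy => hh y hy b (Or.inl hb)
    have h4 := hH V q hq S h b a' fun y hy => hh y hy a' (Or.inr rfl)
    gcongr

end Pool.Agent.H1.LP
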