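import Pool.Agent.H62.LP.T1
import Pool.Agent.H62.LP.T4

/-!
# Row OPN of the board rwl (helper62, MP_521601_pr)

Vertices joined by loops lie in the same open cluster, almost surely.
-/

set_option autoImplicit false

open MeasureTheory ProbabilityTheory Filter Topology
open scoped ENNReal NNReal

namespace Pool.Agent.H1.LP

open Pool.Agent.H62.LP

theorem pf_OPN (hPRS : T_PRS) (hADJ : T_ADJ) : T_OPN := by
  intro α
  have : Countable (Cycle (Vt 3)) := inferInstanceAs (Countable (Quotient _))
  have h := hPRS (Cycle (Vt 3)) (inten 3 α)
  unfold soup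
  filter_upwards [h] with N hN
  intro u v huv
  show Relation.ReflTransGen (Open N) u v
  unfold Conn at huv
  induction huv with
  | refl => exact Relation.ReflTransGen.refl
  | tail _ hs ih =>
    obtain ⟨c, hc, hx, hy⟩ := hs
    have h1 : 1 ≤ N c := hc
    have h2 : mu c ≠ 0 := by
      intro h0
      apply hN c h1
      unfold inten
      rw [h0]
      simp
    refine ih.trans ?_
    exact ((hADJ 3 c h2).2 _ hx _ hy).lift id (fun a b hab => ⟨c, h1, hab⟩)

end Pool.Agent.H1.LP
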