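import Pool.Agent.H62.LP.T1

/-!
# Row SEL of the board rwl (helper62, MP_521601_pr)

Measurable selection from countably many events.
-/

set_option autoImplicit false

open MeasureTheory ProbabilityTheory Filter Topology
open scoped ENNReal NNReal

namespace Pool.Agent.H1.LP

open Pool.Agent.H62.LP

open Classical in
/-- the member with the smallest code -/
noncomputable def selD {Ω C : Type} (g : C → ℕ) (E : C → Set Ω) (ω : Ω) : Option C :=
  if h : ∃ n, ∃ c, g c = n ∧ ω ∈ E c then some (Nat.find_spec h).choose else none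

theorem selD_iff {Ω C : Type} {g : C → ℕ} (hg : Function.Injective g) (E : C → Set Ω) (ω : Ω)
    (c : C) : selD g E ω = some c ↔ ω ∈ E c ∧ ∀ c', g c' < g c → ω ∉ E c' := by
  classical
  unfold selD
  constructor
  · intro h
    split_ifs at h with h1
    have h2 := (Nat.find_spec h1).choose_spec
    rw [Option.some.injEq] at h
    rw [h] at h2
    refine ⟨h2.2, fun c' hc' hω => ?_⟩
    rw [h2.1] at hc'
    exact Nat.find_min h1 hc' ⟨c', rfl, hω⟩
  · rintro ⟨h1, h2⟩
    have h3 : ∃ n, ∃ c, g c = n ∧ ω ∈ E c := ⟨g c, c, rfl, h1⟩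
    rw [dif_pos h3, Option.some.injEq]
    have h4 := (Nat.find_spec h3).choose_spec
    have h5 : Nat.find h3 ≤ g c := Nat.find_min' h3 ⟨c, rfl, h1⟩
    apply hg
    rcases lt_or_eq_of_le h5 with h6 | h6
    · rw [← h4.1] at h6
      exact absurd h4.2 (h2 _ h6)
    · rw [h4.1, h6]

theorem pf_SEL : T_SEL := by
  classical
  intro Ω _ C _ E hE
  obtain ⟨g, hg⟩ := exists_injective_nat C
  refine ⟨selD g E, ?_, ?_, ?_, ?_⟩
  · intro c
    have h1 : {ω | selD g E ω = some c} = E c ∩ ⋂ c', ⋂ (_ : g c' < g c), (E c')ᶜ := by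
      ext ω
      simp only [Set.mem_ofPred_eq, selD_iff hg, Set.mem_inter_iff, Set.mem_iInter,
        Set.mem_compl_iff]
    rw [h1]
    exact (hE c).inter (MeasurableSet.iInter fun c' => MeasurableSet.iInter fun _ => (hE c').compl)
  · intro ω c h
    exact ((selD_iff hg E ω c).mp h).1
  · intro ω h c hc
    unfold selD at h
    have h3 : ∃ n, ∃ c, g c = n ∧ ω ∈ E c := ⟨g c, c, rfl, hc⟩
    rw [dif_pos h3] at h
    exact absurd h (by simp)
  · intro ω ω' h
    apply Option.ext
    intro c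
    rw [selD_iff hg, selD_iff hg, h c]
    constructor
    · rintro ⟨h1, h2⟩
      exact ⟨h1, fun c' hc' => fun h3 => h2 c' hc' ((h c').mpr h3)⟩
    · rintro ⟨h1, h2⟩
      exact ⟨h1, fun c' hc' => fun h3 => h2 c' hc' ((h c').mp h3)⟩

end Pool.Agent.H1.LP
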