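import Pool.Agent.H7.LP.Targets

/-!
# Row SPS: a separating sequence of Borel sets, closed under complements
-/

set_option autoImplicit false

open Set Filter Topology

namespace Pool.Agent.H1.LP

open Pool.Agent.H7.LP

/-- SPS -/
theorem pf_SPS : T_SPS := by
  intro X _ _
  obtain ⟨S, hS, hsep⟩ := exists_seq_separating X (p := MeasurableSet) MeasurableSet.empty univ
  obtain ⟨B, hB0, hB1⟩ : ∃ B : ℕ → Set X, B 0 = univ ∧ ∀ n, B (n + 1) = S n :=
    ⟨fun n => Nat.rec univ (fun k _ => S k) n, rfl, fun _ => rfl⟩
  have hB : ∀ n, MeasurableSet (B n) := by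
    intro n
    cases n with
    | zero => rw [hB0]; exact MeasurableSet.univ
    | succ n => rw [hB1]; exact hS n
  refine ⟨fun n => if n % 2 = 0 then B (n / 2) else (B (n / 2))ᶜ, ?_, ?_, ?_, ?_⟩
  · intro n
    dsimp only
    split_ifs
    · exact hB _
    · exact (hB _).compl
  · simpa using hB0
  · intro n
    rcases Nat.even_or_odd' n with ⟨k, rfl | rfl⟩
    · refine ⟨2 * k + 1, ?_⟩
      have e1 : (2 * k + 1) % 2 = 1 := by omega
      have e2 : (2 * k + 1) / 2 = k := by omega
      have e3 : (2 * k) % 2 = 0 := by omega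
      have e4 : (2 * k) / 2 = k := by omega
      simp only [e1, e2, e3, e4, if_true, one_ne_zero, if_false]
    · refine ⟨2 * k, ?_⟩
      have e1 : (2 * k + 1) % 2 = 1 := by omega
      have e2 : (2 * k + 1) / 2 = k := by omega
      have e3 : (2 * k) % 2 = 0 := by omega
      have e4 : (2 * k) / 2 = k := by omega
      simp only [e1, e2, e3, e4, if_true, one_ne_zero, if_false, compl_compl]
  · intro x y h
    apply hsep x (mem_univ _) y (mem_univ _)
    intro n
    have h1 := h (2 * (n + 1))
    have e3 : (2 * (n + 1)) % 2 = 0 := by omega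
    have e4 : (2 * (n + 1)) / 2 = n + 1 := by omega
    simp only [e3, e4, if_true, hB1] at h1
    exact h1

end Pool.Agent.H1.LP
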