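import Pool.Agent.H62.LP.T1
import Pool.Agent.H62.LP.T2

/-!
# Row UHT of the board rwl (helper62, MP_521601_pr)

Loops which visit a set far away, first moment.
-/

set_option autoImplicit false

open MeasureTheory ProbabilityTheory Filter Topology
open scoped ENNReal NNReal

namespace Pool.Agent.H1.LP

open Pool.Agent.H62.LP

theorem nm_comm {d : ℕ} (x y : Vt d) : nm (x - y) = nm (y - x) := by
  unfold nm
  congr 1
  funext i
  rw [Pi.sub_apply, Pi.sub_apply]
  omega

theorem nm_self {d : ℕ} (x : Vt d) : nm (x - x) = 0 := by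
  unfold nm
  rw [sub_self]
  apply Nat.eq_zero_of_le_zero
  refine Finset.sup_le fun i _ => ?_
  simp

open Classical in
theorem pf_UHT (hM : T_MOM) (hH : T_HIT) (hQ : T_QAV) : T_UHT := by
  intro C₀ hC n hn U S hUS e he
  have h1 := hM 3 e (fun c : Cycle (Vt 3) => if ∃ y ∈ c, y ∈ S then (1 : ℝ≥0∞) else 0)
  have h2 : ∑' l : List V3, (if ∃ y ∈ l, y ∈ S then lw l * vis e l else 0) =
      ∑' l : List (Vt 3), lw l * (vis e l *
        (fun c : Cycle (Vt 3) => if ∃ y ∈ c, y ∈ S then (1 : ℝ≥0∞) else 0)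
          (l : Cycle (Vt 3))) := by
    refine tsum_congr fun l => ?_
    simp only [Cycle.mem_coe_iff]
    split_ifs
    · rw [mul_one]
    · rw [mul_zero, mul_zero]
  rw [h2, h1]
  unfold mass
  rw [← ENNReal.tsum_mul_left]
  refine ENNReal.tsum_le_tsum fun a => ?_
  by_cases hea : e a = 0
  · have h3 : ∀ t : List (Vt 3), (if t = [] then (0 : ℝ≥0∞) else e a * (wt Q a (t ++ [a]) *
        (fun c : Cycle (Vt 3) => if ∃ y ∈ c, y ∈ S then (1 : ℝ≥0∞) else 0)
          ((a :: t : List (Vt 3)) : Cycle (Vt 3)))) = 0 := by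
      intro t
      rw [hea, zero_mul, ite_self]
    rw [tsum_congr h3, tsum_zero]
    exact bot_le
  · have haU := he a hea
    have haS : a ∉ S := by
      intro h
      have h3 := hUS a haU a h
      rw [nm_self] at h3
      omega
    have h4 : ∀ t : List (Vt 3), (if t = [] then (0 : ℝ≥0∞) else e a * (wt Q a (t ++ [a]) *
        (fun c : Cycle (Vt 3) => if ∃ y ∈ c, y ∈ S then (1 : ℝ≥0∞) else 0)
          ((a :: t : List (Vt 3)) : Cycle (Vt 3)))) ≤
        e a * (if ∃ y ∈ t, y ∈ S then wt Q a (t ++ [a]) else 0) := by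
      intro t
      have h5 : (∃ y ∈ ((a :: t : List (Vt 3)) : Cycle (Vt 3)), y ∈ S) ↔ ∃ y ∈ t, y ∈ S := by
        simp only [Cycle.mem_coe_iff, List.mem_cons]
        constructor
        · rintro ⟨y, h6 | h6, h7⟩
          · rw [h6] at h7
            exact absurd h7 haS
          · exact ⟨y, h6, h7⟩
        · rintro ⟨y, h6, h7⟩
          exact ⟨y, Or.inr h6, h7⟩
      simp only [h5]
      split_ifs
      · exact bot_le
      · exact bot_le
      · rw [mul_one]
      · rw [mul_zero]
    refine (ENNReal.tsum_le_tsum h4).trans ?_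
    rw [ENNReal.tsum_mul_left, mul_comm]
    gcongr
    refine hH (Vt 3) Q (fun x => (hQ.2.1 x).le) S _ a a ?_
    intro y hy
    have h6 : Hk Q y a ≤ Gr y a := by
      unfold Gr Gk
      exact le_add_self
    refine (h6.trans (hC.2 y a)).trans ?_
    have h7 := hUS a haU y hy
    rw [nm_comm] at h7
    apply ENNReal.div_le_div_left
    exact_mod_cast h7.trans (by omega)

end Pool.Agent.H1.LP
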